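import Pool.Agent.H85.SD.Deg

/-!
Row SDCl of project MP_28250c_SD (helper85).  The derived functions form an ideal up to degree `d`.

Proof of `KK_abs`: every `y ∈ PP p n b` is a combination of monomials `∏_(i ∈ T) x_i` with `T.card ≤ b`.  For a monomial use
induction on `T` (Finset.induction_on): `x * mono (insert i T) = x_i * (x * mono T)`, where `x * mono T ∈ PP (a + T.card)`
(by `PP_mul`) and `a + T.card < a + b ≤ d`, so `Derives.mul` applies.
-/

set_option autoImplicit false
open scoped Classical

namespace SizeDegree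

/-- the derived functions -/
def KK (p : ℕ) {n m : ℕ} (Φ : Fin m → Clause n) (d : ℕ) : Submodule (ZMod p) (Pt n → ZMod p) where
  carrier := {g | Derives Φ d g}
  add_mem' := fun h1 h2 => Derives.add h1 h2
  zero_mem' := Derives.zero
  smul_mem' := fun a _ h => Derives.smul a h

private theorem Cl_mono {p n : ℕ} (T : Finset (Fin n)) :
    (fun x : Pt n => ∏ i ∈ T, (if x i then (1 : ZMod p) else 0)) ∈ PP p n T.card := by
  refine ⟨fun S => if S = T then 1 else 0, fun x => ?_⟩
  rw [Finset.sum_eq_single T]
  · simp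
  · intro S _ hS
    show (if S = T then (1 : ZMod p) else 0) * _ = 0
    rw [if_neg hS, zero_mul]
  · intro h
    exfalso
    apply h
    rw [Finset.mem_filter]
    exact ⟨Finset.mem_univ _, le_refl _⟩

private theorem Cl_ind {p n m : ℕ} (Φ : Fin m → Clause n) {d a : ℕ} {x : Pt n → ZMod p} (hx : x ∈ KK p Φ d)
    (hxa : x ∈ PP p n a) (T : Finset (Fin n)) :
    a + T.card ≤ d → x * (fun z : Pt n => ∏ i ∈ T, (if z i then (1 : ZMod p) else 0)) ∈ KK p Φ d := by
  induction T using Finset.induction_on with
  | empty =>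
    intro _
    have e : x * (fun z : Pt n => ∏ i ∈ (∅ : Finset (Fin n)), (if z i then (1 : ZMod p) else 0)) = x := by
      funext z
      simp
    rw [e]
    exact hx
  | insert i T hi ih =>
    intro h
    rw [Finset.card_insert_of_notMem hi] at h
    have h1 := ih (by omega)
    have h2 : DegLE (a + T.card) (x * (fun z : Pt n => ∏ i ∈ T, (if z i then (1 : ZMod p) else 0))) :=
      PP_mul hxa (Cl_mono T)
    have h3 : Derives Φ d (fun z => (if z i then (1 : ZMod p) else 0) *
        (x * (fun z : Pt n => ∏ i ∈ T, (if z i then (1 : ZMod p) else 0))) z) :=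
      Derives.mul i h1 h2 (by omega)
    have e : x * (fun z : Pt n => ∏ j ∈ insert i T, (if z j then (1 : ZMod p) else 0)) =
        (fun z => (if z i then (1 : ZMod p) else 0) *
        (x * (fun z : Pt n => ∏ i ∈ T, (if z i then (1 : ZMod p) else 0))) z) := by
      funext z
      simp only [Pi.mul_apply]
      rw [Finset.prod_insert hi]
      ring
    rw [e]
    exact h3

theorem KK_abs {p n m : ℕ} (Φ : Fin m → Clause n) {d a b : ℕ} {x y : Pt n → ZMod p} (hx : x ∈ KK p Φ d)
    (hxa : x ∈ PP p n a) (hy : y ∈ PP p n b) (hab : a + b ≤ d) : x * y ∈ KK p Φ d := by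
  obtain ⟨c, hc⟩ := hy
  have e : x * y = ∑ T ∈ Finset.univ.filter (fun T : Finset (Fin n) => T.card ≤ b),
      c T • (x * (fun z : Pt n => ∏ i ∈ T, (if z i then (1 : ZMod p) else 0))) := by
    funext z
    rw [Pi.mul_apply, hc z, Finset.sum_apply, Finset.mul_sum]
    refine Finset.sum_congr rfl fun T _ => ?_
    simp only [Pi.smul_apply, Pi.mul_apply, smul_eq_mul]
    ring
  rw [e]
  refine Submodule.sum_mem _ fun T hT => Submodule.smul_mem _ _ ?_
  have hT' := (Finset.mem_filter.1 hT).2
  exact Cl_ind Φ hx hxa T (by omega)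

end SizeDegree
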