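import Pool.Agent.H85.SD.Lem
import Pool.Agent.H85.SD.Cl

/-!
helper85: soundness modulo `K` and the counting argument (size-degree theorem).
-/

set_option autoImplicit false
open scoped Classical

namespace SizeDegree

open H85SD

/-- the truncated ideal of the derived functions -/
def TT (p : ℕ) [Fact p.Prime] {n m : ℕ} (Φ : Fin m → Clause n) (d : ℕ) : TB p (Pt n → ZMod p) where
  P := PP p n
  K := KK p Φ d
  d := d
  mono := PP_mono
  mul := PP_mul
  one := PP_one
  abs := KK_abs Φ
  fro := fun x => by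
    funext y
    rw [Pi.pow_apply, ZMod.pow_card]

section abstr
variable {p : ℕ} {R : Type} [CommRing R] [Algebra (ZMod p) R]

theorem prod_mem (T : TB p R) {ι : Type} {δ : ℕ} (z : ι → R) (S : Finset ι) (hz : ∀ i ∈ S, z i ∈ T.P δ) :
    ∏ i ∈ S, (1 - z i) ∈ T.P (δ * S.card) := by
  induction S using Finset.induction_on with
  | empty => rw [Finset.prod_empty, Finset.card_empty, mul_zero]; exact T.one
  | insert i S hi ih =>
    rw [Finset.prod_insert hi, Finset.card_insert_of_notMem hi, Nat.mul_succ, add_comm]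
    exact T.mul ((T.P δ).sub_mem (T.mono (Nat.zero_le _) T.one) (hz i (Finset.mem_insert_self i S)))
      (ih fun j hj => hz j (Finset.mem_insert_of_mem hj))

/-- if `F z ∈ K` for all `z` then `F = F ∏ (1 - z)` modulo `K` -/
theorem prod_abs (T : TB p R) {ι : Type} {b δ : ℕ} {F : R} (hF : F ∈ T.P b) (z : ι → R) (S : Finset ι)
    (hz : ∀ i ∈ S, z i ∈ T.P δ) (hK : ∀ i ∈ S, F * z i ∈ T.K) (hd : b + δ * S.card ≤ T.d) :
    F - F * ∏ i ∈ S, (1 - z i) ∈ T.K := by
  induction S using Finset.induction_on with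
  | empty => rw [Finset.prod_empty, mul_one, sub_self]; exact T.K.zero_mem
  | insert i S hi ih =>
    rw [Finset.card_insert_of_notMem hi, Nat.mul_succ] at hd
    have h1 := ih (fun j hj => hz j (Finset.mem_insert_of_mem hj)) (fun j hj => hK j (Finset.mem_insert_of_mem hj))
      (by omega)
    have h2 := T.abs (hK i (Finset.mem_insert_self i S)) (T.mul hF (hz i (Finset.mem_insert_self i S)))
      (prod_mem T z S fun j hj => hz j (Finset.mem_insert_of_mem hj)) (by omega)
    rw [Finset.prod_insert hi]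
    have : F - F * ((1 - z i) * ∏ j ∈ S, (1 - z j)) = (F - F * ∏ j ∈ S, (1 - z j)) + F * z i * ∏ j ∈ S, (1 - z j) := by
      ring
    rw [this]
    exact T.K.add_mem h1 h2

/-- intersections of subspaces of small codimension -/
theorem inter_dim [Fact p.Prime] [FiniteDimensional (ZMod p) R] (V : Submodule (ZMod p) R) {ι : Type}
    (A : ι → Submodule (ZMod p) R) (hA : ∀ i, A i ≤ V) (S : Finset ι) :
    (Module.finrank (ZMod p) V : ℝ) - Module.finrank (ZMod p) ↥(V ⊓ S.inf A) ≤
      ∑ i ∈ S, ((Module.finrank (ZMod p) V : ℝ) - Module.finrank (ZMod p) (A i)) := by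
  induction S using Finset.induction_on with
  | empty =>
    rw [Finset.inf_empty, inf_top_eq, Finset.sum_empty, sub_self]
  | insert i S hi ih =>
    rw [Finset.sum_insert hi, Finset.inf_insert]
    have h1 := Submodule.finrank_sup_add_finrank_inf_eq (A i) (V ⊓ S.inf A)
    have h2 : A i ⊓ (V ⊓ S.inf A) = V ⊓ (A i ⊓ S.inf A) := by
      rw [← inf_assoc, inf_comm (A i) V, inf_assoc]
    rw [h2] at h1
    have h3 : Module.finrank (ZMod p) ↥(A i ⊔ V ⊓ S.inf A) ≤ Module.finrank (ZMod p) V :=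
      Submodule.finrank_mono (sup_le (hA i) inf_le_left)
    have h4 : (Module.finrank (ZMod p) ↥(A i ⊔ V ⊓ S.inf A) : ℝ) + Module.finrank (ZMod p) ↥(V ⊓ (A i ⊓ S.inf A)) =
        Module.finrank (ZMod p) (A i) + Module.finrank (ZMod p) ↥(V ⊓ S.inf A) := by exact_mod_cast h1
    have h5 : (Module.finrank (ZMod p) ↥(A i ⊔ V ⊓ S.inf A) : ℝ) ≤ Module.finrank (ZMod p) V := by exact_mod_cast h3
    linarith

end abstr

theorem clause_deg {p : ℕ} [Fact p.Prime] {n k m : ℕ} (Φ : Fin m → Clause n) (d : ℕ) (C : Clause n) (hC : C.card ≤ k) :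
    (fun x : Pt n => if C.Holds x then (0 : ZMod p) else 1) ∈ PP p n k := by
  have h1 := prod_mem (TT p Φ d) (δ := 1) (fun l : Fin n × Bool => fun x : Pt n => if x l.1 = l.2 then (1 : ZMod p) else 0)
    C (fun l _ => PP_lit l)
  have h2 : (fun x : Pt n => if C.Holds x then (0 : ZMod p) else 1) =
      ∏ l ∈ C, (1 - (fun x : Pt n => if x l.1 = l.2 then (1 : ZMod p) else 0)) := by
    funext x
    rw [Finset.prod_apply]
    by_cases hx : C.Holds x
    · rw [if_pos hx]
      obtain ⟨l, hl, hlx⟩ := hx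
      exact (Finset.prod_eq_zero hl (by rw [Pi.sub_apply, Pi.one_apply, if_pos hlx, sub_self])).symm
    · rw [if_neg hx]
      refine (Finset.prod_eq_one fun l hl => ?_).symm
      rw [Pi.sub_apply, Pi.one_apply, if_neg (fun h => hx ⟨l, hl, h⟩), sub_zero]
  rw [h2]
  exact PP_mono (by omega) h1

/-- soundness modulo `K` of one inference -/
theorem sound_step {p : ℕ} [Fact p.Prime] {n m e t f s k D W d i : ℕ} (Φ : Fin m → Clause n) (hk : ∀ j, (Φ j).card ≤ k)
    (l : ℕ → Line p n e t) (J : Finset ℕ) (Jc : Finset (Fin m)) (hJ : J.card ≤ f) (hJc : Jc.card ≤ f)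
    (hinf : Infers s Φ Jc l J (l i)) {F : Pt n → ZMod p} (hF : F ∈ PP p n D) (a : ℕ → Pt n → ZMod p)
    (ha : ∀ j ∈ insert i J, a j ∈ PP p n W)
    (hca : ∀ j ∈ J, ∃ (mm : ℕ) (c g : Fin mm → Pt n → ZMod p), (∀ r, c r ∈ PP p n W) ∧ (∀ r, g r ∈ (l j).E) ∧
      1 - a j = ∑ r, c r * g r)
    (hK : ∀ g ∈ (l i).E, F * (a i * g) ∈ KK p Φ d) (hprem : ∀ j ∈ J, F * (a j * (1 - (l j).h)) ∈ KK p Φ d)
    (hd : D + 2 * W + (f + 3) * (t + (s + 1) * e + k + 1) ≤ d) :
    F * (a i * (1 - (l i).h)) ∈ KK p Φ d := by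
  obtain ⟨A, B, hA, hBc, hB, hsem⟩ := hinf
  have hbud1 : D + 2 * W + 2 * t + (s + 1) * e + k ≤ d := by
    have : 2 * (t + (s + 1) * e + k + 1) ≤ (f + 3) * (t + (s + 1) * e + k + 1) := Nat.mul_le_mul_right _ (by omega)
    omega
  have hbud2 : D + W + t + (t + e * s) * f + k * f + e * s ≤ d := by
    have h1 : (t + e * s) * f + k * f ≤ f * (t + (s + 1) * e + k + 1) := by
      have : (t + e * s) * f + k * f = f * (t + e * s + k) := by ring
      rw [this]
      refine Nat.mul_le_mul_left f ?_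
      have : (s + 1) * e = e * s + e := by ring
      omega
    have h2 : (f + 3) * (t + (s + 1) * e + k + 1) = f * (t + (s + 1) * e + k + 1) + 3 * (t + (s + 1) * e + k + 1) := by
      ring
    have h3 : (s + 1) * e = e * s + e := by ring
    omega
  have hse : (s + 1) * e = e * s + e := by ring
  set T := TT p Φ d with hT
  have hhP : ∀ j, (1 - (l j).h) ∈ PP p n t := fun j =>
    (PP p n t).sub_mem (PP_mono (Nat.zero_le t) PP_one) (l j).hh.1
  set G : Pt n → ZMod p := F * (a i * (1 - (l i).h)) with hG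
  have haP := ha i (Finset.mem_insert_self i J)
  have hGP : G ∈ PP p n (D + (W + t)) := PP_mul hF (PP_mul haP (hhP i))
  -- conditions of the conclusion
  have hE : ∀ b ∈ Submodule.span (ZMod p) (l i).E, G * b ∈ KK p Φ d := by
    intro b hb
    induction hb using Submodule.span_induction with
    | mem g hg =>
      have h1 := KK_abs Φ (hK g hg) (PP_mul hF (PP_mul haP ((l i).hE g hg).1)) (hhP i) (by omega)
      have : G * g = F * (a i * g) * (1 - (l i).h) := by rw [hG]; ring
      rw [this]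
      exact h1
    | zero => rw [mul_zero]; exact (KK p Φ d).zero_mem
    | add x y _ _ hx hy => rw [mul_add]; exact (KK p Φ d).add_mem hx hy
    | smul c x _ hx => rw [mul_smul_comm]; exact (KK p Φ d).smul_mem c hx
  -- premises
  set u : ℕ → Pt n → ZMod p := fun j => ∏ g ∈ A j, (1 - g) with hu
  have huP : ∀ j ∈ J, u j ∈ PP p n (e * s) := by
    intro j hj
    have h1 := prod_mem T (ι := Pt n → ZMod p) (δ := e) (fun g => g) (A j) (fun g hg => ((hA j hj).2.1 g hg).1)
    exact PP_mono (Nat.mul_le_mul_left e (hA j hj).1) h1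
  have hz : ∀ j ∈ J, G * ((1 - (l j).h) * u j) ∈ KK p Φ d := by
    intro j hj
    have haj := ha j (Finset.mem_insert_of_mem hj)
    have k1 : F * (a j * (1 - (l j).h)) * (a i * (1 - (l i).h) * u j) ∈ KK p Φ d :=
      KK_abs Φ (hprem j hj) (PP_mul hF (PP_mul haj (hhP j))) (PP_mul (PP_mul haP (hhP i)) (huP j hj)) (by omega)
    have k2 : ∀ g ∈ Submodule.span (ZMod p) ((l i).E ∪ (A j : Set (Pt n → ZMod p))), G * u j * g ∈ KK p Φ d := by
      intro g hg
      induction hg using Submodule.span_induction with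
      | mem g hg =>
        rcases hg with hg | hg
        · have h1 := KK_abs Φ (hE g (Submodule.subset_span hg)) (PP_mul hGP ((l i).hE g hg).1) (huP j hj) (by omega)
          have : G * u j * g = G * g * u j := by ring
          rw [this]
          exact h1
        · have hgA : g ∈ A j := hg
          have h0 : u j * g = 0 := by
            rw [hu]
            change (∏ g ∈ A j, (1 - g)) * g = 0
            rw [← Finset.mul_prod_erase _ _ hgA]
            have : (1 - g) * g = 0 := by
              funext x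
              rcases ((hA j hj).2.1 g hgA).2 x with h | h
              · simp [h]
              · simp [h]
            calc (1 - g) * (∏ x ∈ (A j).erase g, (1 - x)) * g = ((1 - g) * g) * (∏ x ∈ (A j).erase g, (1 - x)) := by ring
              _ = 0 := by rw [this, zero_mul]
          rw [mul_assoc, h0, mul_zero]
          exact (KK p Φ d).zero_mem
      | zero => rw [mul_zero]; exact (KK p Φ d).zero_mem
      | add x y _ _ hx hy => rw [mul_add]; exact (KK p Φ d).add_mem hx hy
      | smul c x _ hx => rw [mul_smul_comm]; exact (KK p Φ d).smul_mem c hx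
    obtain ⟨mm, c, g, hc, hg, hsum⟩ := hca j hj
    have k3 : ∀ r, G * u j * g r * ((1 - (l j).h) * c r) ∈ KK p Φ d := fun r =>
      KK_abs Φ (k2 (g r) ((hA j hj).2.2 (hg r))) (PP_mul (PP_mul hGP (huP j hj)) ((l j).hE _ (hg r)).1)
        (PP_mul (hhP j) (hc r)) (by omega)
    have k4 : ∑ r, G * u j * g r * ((1 - (l j).h) * c r) ∈ KK p Φ d := Submodule.sum_mem _ fun r _ => k3 r
    have k5 : ∑ r, G * u j * g r * ((1 - (l j).h) * c r) = G * ((1 - (l j).h) * u j) * (1 - a j) := by
      rw [hsum, Finset.mul_sum]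
      exact Finset.sum_congr rfl fun r _ => by ring
    have k6 : G * ((1 - (l j).h) * u j) = F * (a j * (1 - (l j).h)) * (a i * (1 - (l i).h) * u j) +
        G * ((1 - (l j).h) * u j) * (1 - a j) := by
      rw [hG]
      ring
    rw [k6, ← k5]
    exact (KK p Φ d).add_mem k1 k4
  -- clauses
  set q : Fin m → Pt n → ZMod p := fun j => fun x => if (Φ j).Holds x then 0 else 1 with hq
  have hqP : ∀ j, q j ∈ PP p n k := fun j => clause_deg Φ d (Φ j) (hk j)
  have hqK : ∀ j, G * q j ∈ KK p Φ d := by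
    intro j
    rw [mul_comm]
    exact KK_abs Φ (Derives.clause j) (hqP j) hGP (by omega)
  set Q1 : Pt n → ZMod p := ∏ j ∈ Jc, (1 - q j) with hQ1
  set Q2 : Pt n → ZMod p := ∏ j ∈ J, (1 - (1 - (l j).h) * u j) with hQ2
  set Q3 : Pt n → ZMod p := ∏ g ∈ B, (1 - g) with hQ3
  have hP1 : Q1 ∈ PP p n (k * f) := PP_mono (Nat.mul_le_mul_left k hJc) (prod_mem T q Jc fun j _ => hqP j)
  have hP2 : Q2 ∈ PP p n ((t + e * s) * f) := PP_mono (Nat.mul_le_mul_left _ hJ)
    (prod_mem T (fun j => (1 - (l j).h) * u j) J fun j hj => PP_mul (hhP j) (huP j hj))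
  have hP3 : Q3 ∈ PP p n (e * s) := PP_mono (Nat.mul_le_mul_left e hBc)
    (prod_mem T (fun g => g) B fun g hg => (hB g hg).1.1)
  have a1 : G - G * Q1 ∈ KK p Φ d := prod_abs T hGP q Jc (fun j _ => hqP j) (fun j _ => hqK j) (by
    have := Nat.mul_le_mul_left k hJc
    change D + (W + t) + k * Jc.card ≤ d
    omega)
  have a2 : G - G * Q2 ∈ KK p Φ d := prod_abs T hGP (fun j => (1 - (l j).h) * u j) J
    (fun j hj => PP_mul (hhP j) (huP j hj)) hz (by
    have := Nat.mul_le_mul_left (t + e * s) hJ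
    change D + (W + t) + (t + e * s) * J.card ≤ d
    omega)
  have a3 : G - G * Q3 ∈ KK p Φ d := prod_abs T hGP (fun g => g) B (fun g hg => (hB g hg).1.1)
    (fun g hg => hE g (hB g hg).2) (by
    have := Nat.mul_le_mul_left e hBc
    change D + (W + t) + e * B.card ≤ d
    omega)
  have b2 : (G - G * Q2) * Q1 ∈ KK p Φ d := KK_abs Φ a2
    ((PP p n _).sub_mem (PP_mono (Nat.le_add_right _ _) hGP) (PP_mul hGP hP2)) hP1 (by omega)
  have b3 : (G - G * Q3) * (Q1 * Q2) ∈ KK p Φ d := KK_abs Φ a3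
    ((PP p n _).sub_mem (PP_mono (Nat.le_add_right _ _) hGP) (PP_mul hGP hP3)) (PP_mul hP1 hP2) (by omega)
  have hzero : G * (Q1 * Q2 * Q3) = 0 := by
    funext x
    by_contra hne
    rw [Pi.zero_apply, Pi.mul_apply, Pi.mul_apply, Pi.mul_apply] at hne
    have hG0 : G x ≠ 0 := fun h => hne (by rw [h, zero_mul])
    have h1 : Q1 x ≠ 0 := fun h => hne (by rw [h]; ring)
    have h2 : Q2 x ≠ 0 := fun h => hne (by rw [h]; ring)
    have h3 : Q3 x ≠ 0 := fun h => hne (by rw [h]; ring)
    have hh : (l i).h x ≠ 1 := by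
      intro h
      apply hG0
      rw [hG, Pi.mul_apply, Pi.mul_apply, Pi.sub_apply, Pi.one_apply, h, sub_self, mul_zero, mul_zero]
    rw [hQ1, Finset.prod_apply] at h1
    rw [hQ2, Finset.prod_apply] at h2
    rw [hQ3, Finset.prod_apply] at h3
    rw [Finset.prod_ne_zero_iff] at h1 h2 h3
    have hcl : ∀ j ∈ Jc, (Φ j).Holds x := by
      intro j hj
      by_contra hnot
      apply h1 j hj
      rw [Pi.sub_apply, Pi.one_apply, hq]
      change 1 - (if (Φ j).Holds x then (0 : ZMod p) else 1) = 0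
      rw [if_neg hnot, sub_self]
    have hpr : ∀ j ∈ J, (l j).h x = 1 ∨ ∃ g ∈ A j, g x = 1 := by
      intro j hj
      by_contra hnot
      push Not at hnot
      obtain ⟨n1, n2⟩ := hnot
      apply h2 j hj
      have e1 : (l j).h x = 0 := ((l j).hh.2 x).resolve_right n1
      have e2 : u j x = 1 := by
        rw [hu]
        change (∏ g ∈ A j, (1 - g)) x = 1
        rw [Finset.prod_apply]
        refine Finset.prod_eq_one fun g hg => ?_
        rw [Pi.sub_apply, Pi.one_apply, (((hA j hj).2.1 g hg).2 x).resolve_right (n2 g hg), sub_zero]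
      rw [Pi.sub_apply, Pi.mul_apply, Pi.sub_apply, Pi.one_apply, e1, e2, sub_zero, mul_one, sub_self]
    rcases hsem x hcl hpr with h | ⟨g, hg, hgx⟩
    · exact hh h
    · apply h3 g hg
      rw [Pi.sub_apply, Pi.one_apply, hgx, sub_self]
  have hfin : G = (G - G * Q1) + (G - G * Q2) * Q1 + (G - G * Q3) * (Q1 * Q2) + G * (Q1 * Q2 * Q3) := by ring
  rw [hfin, hzero, add_zero]
  exact (KK p Φ d).add_mem ((KK p Φ d).add_mem a1 b2) b3

end SizeDegree
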