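import Pool.Agent.H85.SD.Defs

/-!
Row SDDeg of project MP_28250c_SD (helper85).  The filtration by the degree on functions `Pt n → ZMod p`.

Proofs.  `PP p n D` is the span of the monomials of degree at most `D` (see `mem_PP`).  `PP_mul`: bilinear, and the product of the
monomials of `S` and `T` is the monomial of `S ∪ T` (0/1 values), whose cardinality is at most the sum.
`PP_fr`: span of `∑_(i ≤ D) binom(n,i)` elements.  `tail_le`: for `0 < q`, `2 q ≤ 1`:
`q^D ∑_(i ≤ D) binom(n,i) ≤ q^D (2q)^(-D) ∑_i binom(n,i) (2q)^i = 2^(-D) (1+2q)^n ≤ 2^(-D) exp(2 q n)`.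
-/

set_option autoImplicit false
open scoped Classical

namespace SizeDegree

/-- the functions of degree at most `D` -/
def PP (p n D : ℕ) : Submodule (ZMod p) (Pt n → ZMod p) where
  carrier := {g | DegLE D g}
  add_mem' := by
    rintro g h ⟨a, ha⟩ ⟨b, hb⟩
    refine ⟨a + b, fun x => ?_⟩
    rw [Pi.add_apply, ha, hb, ← Finset.sum_add_distrib]
    exact Finset.sum_congr rfl fun T _ => by rw [Pi.add_apply, add_mul]
  zero_mem' := ⟨0, fun x => by simp⟩
  smul_mem' := by
    rintro c g ⟨a, ha⟩
    refine ⟨c • a, fun x => ?_⟩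
    rw [Pi.smul_apply, ha, smul_eq_mul, Finset.mul_sum]
    exact Finset.sum_congr rfl fun T _ => by rw [Pi.smul_apply, smul_eq_mul, mul_assoc]

theorem mem_PP {p n D : ℕ} {g : Pt n → ZMod p} : g ∈ PP p n D ↔ DegLE D g := Iff.rfl

private def mnm {p n : ℕ} (T : Finset (Fin n)) : Pt n → ZMod p := fun x => ∏ i ∈ T, (if x i then 1 else 0)

private theorem mnm_mul {p n : ℕ} (S T : Finset (Fin n)) : (mnm S : Pt n → ZMod p) * mnm T = mnm (S ∪ T) := by
  have key : ∀ (U : Finset (Fin n)) (x : Pt n), (∏ i ∈ U, (if x i then (1 : ZMod p) else 0)) =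
      if ∀ i ∈ U, x i = true then 1 else 0 := by
    intro U x
    induction U using Finset.induction_on with
    | empty => simp
    | insert a U ha ih =>
      rw [Finset.prod_insert ha, ih]
      by_cases h1 : x a = true
      · rw [if_pos h1, one_mul]
        by_cases h2 : ∀ i ∈ U, x i = true
        · rw [if_pos h2, if_pos]
          intro i hi
          rcases Finset.mem_insert.mp hi with rfl | hi
          · exact h1
          · exact h2 i hi
        · rw [if_neg h2, if_neg fun h => h2 fun i hi => h i (Finset.mem_insert_of_mem hi)]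
      · rw [if_neg h1, zero_mul, if_neg fun h => h1 (h a (Finset.mem_insert_self _ _))]
  funext x
  simp only [Pi.mul_apply, mnm]
  rw [key, key, key]
  by_cases h1 : ∀ i ∈ S, x i = true
  · rw [if_pos h1, one_mul]
    by_cases h2 : ∀ i ∈ T, x i = true
    · rw [if_pos h2, if_pos]
      intro i hi
      rcases Finset.mem_union.mp hi with hi | hi
      · exact h1 i hi
      · exact h2 i hi
    · rw [if_neg h2, if_neg fun h => h2 fun i hi => h i (Finset.mem_union_right _ hi)]
  · rw [if_neg h1, zero_mul, if_neg fun h => h1 fun i hi => h i (Finset.mem_union_left _ hi)]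

private theorem PP_eq {p n D : ℕ} :
    PP p n D = Submodule.span (ZMod p) ((fun T => (mnm T : Pt n → ZMod p)) '' {T : Finset (Fin n) | T.card ≤ D}) := by
  apply le_antisymm
  · rintro g ⟨a, ha⟩
    have e : g = ∑ T ∈ Finset.univ.filter (fun T : Finset (Fin n) => T.card ≤ D), a T • mnm T := by
      funext x
      rw [ha, Finset.sum_apply]
      refine Finset.sum_congr rfl fun T _ => ?_
      rw [Pi.smul_apply, smul_eq_mul, mnm]
    rw [e]
    refine Submodule.sum_mem _ fun T hT => Submodule.smul_mem _ _ (Submodule.subset_span ⟨T, ?_, rfl⟩)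
    exact (Finset.mem_filter.mp hT).2
  · rw [Submodule.span_le]
    rintro _ ⟨T, hT, rfl⟩
    refine ⟨fun S => if S = T then 1 else 0, fun x => ?_⟩
    rw [Finset.sum_eq_single T]
    · show mnm T x = (if T = T then (1 : ZMod p) else 0) * _
      rw [if_pos rfl, one_mul]
      rfl
    · intro S _ hS
      show (if S = T then (1 : ZMod p) else 0) * _ = 0
      rw [if_neg hS, zero_mul]
    · intro h
      exact (h (Finset.mem_filter.mpr ⟨Finset.mem_univ _, hT⟩)).elim

theorem PP_mono {p n a b : ℕ} (h : a ≤ b) : PP p n a ≤ PP p n b := by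
  rw [PP_eq, PP_eq]
  exact Submodule.span_mono (Set.image_mono fun T hT => le_trans hT h)

theorem PP_mul {p n a b : ℕ} {x y : Pt n → ZMod p} (hx : x ∈ PP p n a) (hy : y ∈ PP p n b) : x * y ∈ PP p n (a + b) := by
  rw [PP_eq] at hx hy ⊢
  have h1 := Submodule.mul_mem_mul hx hy
  rw [Submodule.span_mul_span] at h1
  refine Submodule.span_mono ?_ h1
  rintro _ ⟨_, ⟨S, hS, rfl⟩, _, ⟨T, hT, rfl⟩, rfl⟩
  refine ⟨S ∪ T, ?_, (mnm_mul S T).symm⟩
  have h2 := Finset.card_union_le S T
  have h3 : S.card ≤ a := hS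
  have h4 : T.card ≤ b := hT
  exact (h2.trans (Nat.add_le_add h3 h4) : (S ∪ T).card ≤ a + b)

theorem PP_one {p n : ℕ} : (1 : Pt n → ZMod p) ∈ PP p n 0 := by
  rw [PP_eq]
  refine Submodule.subset_span ⟨∅, by simp, ?_⟩
  funext x
  simp [mnm]

/-- the indicator function of a literal -/
theorem PP_lit {p n : ℕ} (l : Fin n × Bool) : (fun x : Pt n => if x l.1 = l.2 then (1 : ZMod p) else 0) ∈ PP p n 1 := by
  obtain ⟨i, b⟩ := l
  have h1 : (mnm {i} : Pt n → ZMod p) ∈ PP p n 1 := by
    rw [PP_eq]
    exact Submodule.subset_span ⟨{i}, by simp, rfl⟩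
  cases b with
  | true =>
    have e : (fun x : Pt n => if x i = true then (1 : ZMod p) else 0) = mnm {i} := by
      funext x
      simp [mnm]
    show (fun x : Pt n => if x i = true then (1 : ZMod p) else 0) ∈ PP p n 1
    rw [e]
    exact h1
  | false =>
    have e : (fun x : Pt n => if x i = false then (1 : ZMod p) else 0) = 1 - mnm {i} := by
      funext x
      rw [Pi.sub_apply, Pi.one_apply, mnm, Finset.prod_singleton]
      cases hx : x i <;> simp
    show (fun x : Pt n => if x i = false then (1 : ZMod p) else 0) ∈ PP p n 1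
    rw [e]
    exact Submodule.sub_mem _ (PP_mono (Nat.zero_le 1) PP_one) h1

theorem PP_fr {p n D : ℕ} [Fact p.Prime] :
    Module.finrank (ZMod p) (PP p n D) ≤ ∑ i ∈ Finset.range (D + 1), n.choose i := by
  have e : (PP p n D) = Submodule.span (ZMod p) ((((Finset.univ.filter fun T : Finset (Fin n) => T.card ≤ D).image
      (fun T => (mnm T : Pt n → ZMod p))) : Finset (Pt n → ZMod p)) : Set (Pt n → ZMod p)) := by
    rw [PP_eq, Finset.coe_image]
    congr 2
    ext T
    rw [Finset.mem_coe, Finset.mem_filter]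
    exact ⟨fun h => ⟨Finset.mem_univ _, h⟩, fun h => h.2⟩
  rw [e]
  refine (finrank_span_finset_le_card _).trans (Finset.card_image_le.trans ?_)
  have h2 : (Finset.univ.filter fun T : Finset (Fin n) => T.card ≤ D) ⊆
      (Finset.range (D + 1)).biUnion fun i => Finset.powersetCard i (Finset.univ : Finset (Fin n)) := by
    intro T hT
    rw [Finset.mem_biUnion]
    refine ⟨T.card, Finset.mem_range.mpr (Nat.lt_succ_of_le (Finset.mem_filter.mp hT).2), ?_⟩
    rw [Finset.mem_powersetCard]
    exact ⟨Finset.subset_univ _, rfl⟩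
  refine (Finset.card_le_card h2).trans (Finset.card_biUnion_le.trans (le_of_eq ?_))
  refine Finset.sum_congr rfl fun i _ => ?_
  rw [Finset.card_powersetCard, Finset.card_univ, Fintype.card_fin]

theorem tail_le {p n D : ℕ} [Fact p.Prime] {q : ℝ} (hq : 0 < q) (hq1 : 2 * q ≤ 1) :
    q ^ D * (Module.finrank (ZMod p) (PP p n D) : ℝ) ≤ (1 / 2) ^ D * Real.exp (2 * q * n) := by
  have h1 : (Module.finrank (ZMod p) (PP p n D) : ℝ) ≤ ∑ i ∈ Finset.range (D + 1), (n.choose i : ℝ) := by
    have := PP_fr (p := p) (n := n) (D := D)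
    exact_mod_cast this
  have h2q : 0 < 2 * q := by linarith
  have h3 : ∑ i ∈ Finset.range (D + 1), (2 * q) ^ D * (n.choose i : ℝ) ≤ (1 + 2 * q) ^ n := by
    have h4 : ∑ i ∈ Finset.range (D + 1), (2 * q) ^ D * (n.choose i : ℝ) ≤
        ∑ i ∈ Finset.range (D + 1), (2 * q) ^ i * (n.choose i : ℝ) := by
      refine Finset.sum_le_sum fun i hi => ?_
      refine mul_le_mul_of_nonneg_right ?_ (Nat.cast_nonneg _)
      exact pow_le_pow_of_le_one h2q.le hq1 (Nat.lt_succ_iff.mp (Finset.mem_range.mp hi))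
    have h5 : ∑ i ∈ Finset.range (D + 1), (2 * q) ^ i * (n.choose i : ℝ) ≤
        ∑ i ∈ Finset.range (max D n + 1), (2 * q) ^ i * (n.choose i : ℝ) := by
      refine Finset.sum_le_sum_of_subset_of_nonneg ?_ fun i _ _ => by positivity
      exact Finset.range_mono (by have := le_max_left D n; omega)
    have h6 : ∑ i ∈ Finset.range (max D n + 1), (2 * q) ^ i * (n.choose i : ℝ) =
        ∑ i ∈ Finset.range (n + 1), (2 * q) ^ i * (n.choose i : ℝ) := by
      symm
      refine Finset.sum_subset (Finset.range_mono (by have := le_max_right D n; omega)) fun i _ hi => ?_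
      have : n < i := by
        by_contra h
        exact hi (Finset.mem_range.mpr (by omega))
      rw [Nat.choose_eq_zero_of_lt this, Nat.cast_zero, mul_zero]
    have h7 : ∑ i ∈ Finset.range (n + 1), (2 * q) ^ i * (n.choose i : ℝ) = (1 + 2 * q) ^ n := by
      rw [add_comm 1 (2 * q), add_pow]
      refine Finset.sum_congr rfl fun i _ => ?_
      rw [one_pow, mul_one]
    linarith
  have h8 : (1 + 2 * q) ^ n ≤ Real.exp (2 * q * n) := by
    have h9 : 1 + 2 * q ≤ Real.exp (2 * q) := by
      have := Real.add_one_le_exp (2 * q)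
      linarith
    calc (1 + 2 * q) ^ n ≤ (Real.exp (2 * q)) ^ n := pow_le_pow_left₀ (by linarith) h9 n
      _ = Real.exp (2 * q * n) := by rw [← Real.exp_nat_mul]; congr 1; ring
  calc q ^ D * (Module.finrank (ZMod p) (PP p n D) : ℝ)
      ≤ q ^ D * ∑ i ∈ Finset.range (D + 1), (n.choose i : ℝ) := mul_le_mul_of_nonneg_left h1 (pow_nonneg hq.le _)
    _ = (1 / 2) ^ D * ∑ i ∈ Finset.range (D + 1), (2 * q) ^ D * (n.choose i : ℝ) := by
        rw [← Finset.mul_sum, ← mul_assoc, ← mul_pow]
        congr 2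
        ring
    _ ≤ (1 / 2) ^ D * Real.exp (2 * q * n) :=
        mul_le_mul_of_nonneg_left (h3.trans h8) (by positivity)

end SizeDegree
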