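import Pool.Agent.H85.SD.Core

/-!
helper85: the Razborov-Smolensky approximation of a line relative to `K`.
-/

set_option autoImplicit false
open scoped Classical

namespace H85SD

variable {p : ℕ} {R : Type} [CommRing R] [Algebra (ZMod p) R]

/-- the codimension of `An T D a H` in `P D` -/
noncomputable def rr (T : TB p R) (D : ℕ) (a : R) (H : Set R) : ℝ :=
  (Module.finrank (ZMod p) (T.P D) : ℝ) - Module.finrank (ZMod p) (An T D a H)

/-- the codimension of `K` in `P D` -/
noncomputable def hD (T : TB p R) (D : ℕ) : ℝ :=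
  (Module.finrank (ZMod p) (T.P D) : ℝ) - Module.finrank (ZMod p) ↥(T.P D ⊓ T.K)

/-- the weighted sum of the codimensions -/
noncomputable def UU (T : TB p R) (q : ℝ) (Dm : ℕ) (a : R) (H : Set R) : ℝ :=
  ∑ D ∈ Finset.range (Dm + 1), q ^ D * rr T D a H

/-- the weighted sum of the codimensions of `K` -/
noncomputable def U0 (T : TB p R) (q : ℝ) (Dm : ℕ) : ℝ := ∑ D ∈ Finset.range (Dm + 1), q ^ D * hD T D

/-- the tail -/
noncomputable def tau (T : TB p R) (q : ℝ) (D0 e : ℕ) : ℝ :=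
  ∑ D ∈ Finset.Ico (D0 + 1) (D0 + e + 1), q ^ D * (Module.finrank (ZMod p) (T.P D) : ℝ)

variable [Fact p.Prime] [FiniteDimensional (ZMod p) R]

theorem rr_nonneg (T : TB p R) (D : ℕ) (a : R) (H : Set R) : 0 ≤ rr T D a H := by
  have h : Module.finrank (ZMod p) (An T D a H) ≤ Module.finrank (ZMod p) (T.P D) := Submodule.finrank_mono inf_le_left
  have h' : (Module.finrank (ZMod p) (An T D a H) : ℝ) ≤ Module.finrank (ZMod p) (T.P D) := by exact_mod_cast h
  rw [rr]
  linarith

omit [FiniteDimensional (ZMod p) R] in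
theorem rr_le (T : TB p R) (D : ℕ) (a : R) (H : Set R) : rr T D a H ≤ Module.finrank (ZMod p) (T.P D) := by
  have h : (0 : ℝ) ≤ Module.finrank (ZMod p) (An T D a H) := Nat.cast_nonneg _
  rw [rr]
  linarith

/-- one step -/
theorem step (T : TB p R) {m e A D0 : ℕ} (g : Fin m → R) (hg : ∀ i, g i ∈ T.P e) (hgi : ∀ i, g i * g i = g i)
    {q : ℝ} (hq0 : 0 ≤ q) {a : R} (ha : a ∈ T.P A) (hd : D0 + e + (A + e) + e * (p + 1) ≤ T.d) :
    ∃ c : Fin m → ZMod p,
      UU T q (D0 + e) ((1 - (∑ i, c i • g i) ^ (p - 1)) * a) (Set.range g) - tau T q D0 e ≤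
        (1 - (1 - 1 / (p : ℝ)) * q ^ e) * (UU T q (D0 + e) a (Set.range g) - tau T q D0 e) := by
  have hp2 : 2 ≤ p := (Fact.out : p.Prime).two_le
  have hp0 : (0 : ℝ) < p := by exact_mod_cast (by omega : 0 < p)
  have hp1 : (0 : ℝ) ≤ 1 - 1 / (p : ℝ) := by
    rw [sub_nonneg, div_le_one hp0]
    exact_mod_cast (by omega : 1 ≤ p)
  set H : Set R := Set.range g with hH
  have hHP : ∀ h ∈ H, a * h ∈ T.P (A + e) := by
    rintro _ ⟨i, rfl⟩
    exact T.mul ha (hg i)
  -- averaging for one degree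
  have hav : ∀ D ∈ Finset.range (D0 + 1), (p : ℝ) ^ m * ((1 - 1 / (p : ℝ)) * rr T D a H) ≤
      ∑ c : Fin m → ZMod p, rr T D ((∑ i, c i • g i) * a) H := by
    intro D hD
    rw [Finset.mem_range] at hD
    have h1 := avg T (D := D) (cc := A + e) (e := e) ((fun h => a * h) '' H) (by
      rintro _ ⟨h, hh, rfl⟩
      exact hHP h hh) (by omega) m g hg hgi (T.P D) le_rfl
    have h2 : ∀ c : Fin m → ZMod p, T.P D ⊓ Nn T (∑ i, c i • g i) ((fun h => a * h) '' H) =
        An T D ((∑ i, c i • g i) * a) H := by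
      intro c
      ext f
      simp only [An, Submodule.mem_inf, mem_Nn, Set.forall_mem_image, mul_assoc]
    have h3 : Module.finrank (ZMod p) ↥(T.P D ⊓ NA T g ((fun h => a * h) '' H)) ≤
        Module.finrank (ZMod p) (An T D a H) := by
      refine Submodule.finrank_mono ?_
      intro f hf
      obtain ⟨hf1, hf2⟩ := Submodule.mem_inf.1 hf
      refine Submodule.mem_inf.2 ⟨hf1, ?_⟩
      rintro _ ⟨i, rfl⟩
      have := hf2 i (a * g i) ⟨g i, ⟨i, rfl⟩, rfl⟩
      have e1 : f * (g i * (a * g i)) = f * (a * (g i * g i)) := by ring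
      rwa [e1, hgi] at this
    have h4 : (p : ℝ) * ∑ c : Fin m → ZMod p, (Module.finrank (ZMod p) (An T D ((∑ i, c i • g i) * a) H) : ℝ) ≤
        (p : ℝ) ^ m * (Module.finrank (ZMod p) (T.P D) + ((p : ℝ) - 1) * Module.finrank (ZMod p) (An T D a H)) := by
      have h5 : p * ∑ c : Fin m → ZMod p, Module.finrank (ZMod p) (An T D ((∑ i, c i • g i) * a) H) ≤
          p ^ m * (Module.finrank (ZMod p) (T.P D) + (p - 1) * Module.finrank (ZMod p) (An T D a H)) := by
        refine le_trans ?_ (h1.trans ?_)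
        · refine Nat.mul_le_mul_left p (le_of_eq ?_)
          exact Finset.sum_congr rfl fun c _ =>
            congrArg (fun X : Submodule (ZMod p) R => Module.finrank (ZMod p) X) (h2 c).symm
        · exact Nat.mul_le_mul_left _ (Nat.add_le_add_left (Nat.mul_le_mul_left _ h3) _)
      have h6 : ((p * ∑ c : Fin m → ZMod p, Module.finrank (ZMod p) (An T D ((∑ i, c i • g i) * a) H) : ℕ) : ℝ) ≤
          ((p ^ m * (Module.finrank (ZMod p) (T.P D) + (p - 1) * Module.finrank (ZMod p) (An T D a H)) : ℕ) : ℝ) := by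
        exact_mod_cast h5
      push_cast [Nat.cast_sub (by omega : 1 ≤ p)] at h6
      exact h6
    have h7 : ∑ c : Fin m → ZMod p, rr T D ((∑ i, c i • g i) * a) H =
        (p : ℝ) ^ m * Module.finrank (ZMod p) (T.P D) -
          ∑ c : Fin m → ZMod p, (Module.finrank (ZMod p) (An T D ((∑ i, c i • g i) * a) H) : ℝ) := by
      simp only [rr]
      rw [Finset.sum_sub_distrib, Finset.sum_const, Finset.card_univ, Fintype.card_fun, Fintype.card_fin, ZMod.card,
        nsmul_eq_mul]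
      push_cast
      ring
    rw [h7, rr]
    have h8 : ∑ c : Fin m → ZMod p, (Module.finrank (ZMod p) (An T D ((∑ i, c i • g i) * a) H) : ℝ) ≤
        (p : ℝ) ^ m * (Module.finrank (ZMod p) (T.P D) + ((p : ℝ) - 1) * Module.finrank (ZMod p) (An T D a H)) / p := by
      rw [le_div_iff₀ hp0]
      linarith
    have h9 : (p : ℝ) ^ m * (Module.finrank (ZMod p) (T.P D) + ((p : ℝ) - 1) * Module.finrank (ZMod p) (An T D a H)) / p =
        (p : ℝ) ^ m * (Module.finrank (ZMod p) (T.P D) : ℝ) - (p : ℝ) ^ m * ((1 - 1 / (p : ℝ)) *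
          ((Module.finrank (ZMod p) (T.P D) : ℝ) - Module.finrank (ZMod p) (An T D a H))) := by
      field_simp
      ring
    linarith
  -- the good combination
  have hc : ∃ c : Fin m → ZMod p, (1 - 1 / (p : ℝ)) * ∑ D ∈ Finset.range (D0 + 1), q ^ D * rr T D a H ≤
      ∑ D ∈ Finset.range (D0 + 1), q ^ D * rr T D ((∑ i, c i • g i) * a) H := by
    by_contra hcon
    push Not at hcon
    have h1 : ∑ c : Fin m → ZMod p, ∑ D ∈ Finset.range (D0 + 1), q ^ D * rr T D ((∑ i, c i • g i) * a) H <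
        ∑ _c : Fin m → ZMod p, (1 - 1 / (p : ℝ)) * ∑ D ∈ Finset.range (D0 + 1), q ^ D * rr T D a H :=
      Finset.sum_lt_sum_of_nonempty Finset.univ_nonempty fun c _ => hcon c
    rw [Finset.sum_comm, Finset.sum_const, Finset.card_univ, Fintype.card_fun, Fintype.card_fin, ZMod.card,
      nsmul_eq_mul, Finset.mul_sum, Finset.mul_sum] at h1
    refine absurd h1 (not_lt.2 (Finset.sum_le_sum fun D hD => ?_))
    rw [← Finset.mul_sum]
    have h2 := mul_le_mul_of_nonneg_left (hav D hD) (pow_nonneg hq0 D)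
    push_cast
    calc (p : ℝ) ^ m * ((1 - 1 / (p : ℝ)) * (q ^ D * rr T D a H))
        = q ^ D * ((p : ℝ) ^ m * ((1 - 1 / (p : ℝ)) * rr T D a H)) := by ring
      _ ≤ _ := h2
  obtain ⟨c, hc⟩ := hc
  refine ⟨c, ?_⟩
  set u : R := ∑ i, c i • g i with hu
  have huP : u ∈ T.P e := Submodule.sum_mem _ fun i _ => (T.P e).smul_mem _ (hg i)
  have hep : e * (p + 1) = e * (p - 1) + e + e := by
    obtain ⟨q, rfl⟩ : ∃ q, p = q + 1 := ⟨p - 1, by omega⟩
    rw [Nat.add_sub_cancel]
    ring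
  set a' : R := (1 - u ^ (p - 1)) * a with ha'
  have hsmall : ∀ D ∈ Finset.range (D0 + e + 1), rr T D a' H ≤ rr T D a H := by
    intro D hD
    rw [Finset.mem_range] at hD
    have h1 : Module.finrank (ZMod p) (An T D a H) ≤ Module.finrank (ZMod p) (An T D a' H) := by
      refine Submodule.finrank_mono ?_
      intro f hf
      obtain ⟨hf1, hf2⟩ := Submodule.mem_inf.1 hf
      refine Submodule.mem_inf.2 ⟨hf1, fun h hh => ?_⟩
      have e1 : f * (a' * h) = f * (a * h) * (1 - u ^ (p - 1)) := by rw [ha']; ring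
      rw [e1]
      exact T.abs (hf2 h hh) (T.mul hf1 (hHP h hh))
        ((T.P _).sub_mem (T.mono (Nat.zero_le _) T.one) (T.pw huP (p - 1))) (by omega)
    have h2 : (Module.finrank (ZMod p) (An T D a H) : ℝ) ≤ Module.finrank (ZMod p) (An T D a' H) := by exact_mod_cast h1
    rw [rr, rr]
    linarith
  have hbig : ∀ D ∈ Finset.range (D0 + 1), rr T (D + e) a' H ≤ rr T (D + e) a H - rr T D (u * a) H := by
    intro D hD
    rw [Finset.mem_range] at hD
    have h1 := split T (D := D + e) (c := A + e) (e := e) H a u hHP huP (Nat.le_add_left _ _) (by omega)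
    rw [Nat.add_sub_cancel] at h1
    have h2 : ((Module.finrank (ZMod p) (T.P D) + Module.finrank (ZMod p) (An T (D + e) a H) : ℕ) : ℝ) ≤
        ((Module.finrank (ZMod p) (An T (D + e) ((1 - u ^ (p - 1)) * a) H) +
          Module.finrank (ZMod p) (An T D (u * a) H) : ℕ) : ℝ) := by exact_mod_cast h1
    push_cast at h2
    rw [rr, rr, rr]
    linarith
  have hsum : UU T q (D0 + e) a' H ≤ UU T q (D0 + e) a H -
      q ^ e * ∑ D ∈ Finset.range (D0 + 1), q ^ D * rr T D (u * a) H := by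
    have hr : D0 + e + 1 = e + (D0 + 1) := by omega
    rw [UU, UU, hr, Finset.sum_range_add (fun D => q ^ D * rr T D a' H) e (D0 + 1),
      Finset.sum_range_add (fun D => q ^ D * rr T D a H) e (D0 + 1), add_sub_assoc, Finset.mul_sum,
      ← Finset.sum_sub_distrib]
    refine add_le_add (Finset.sum_le_sum fun D hD => ?_) (Finset.sum_le_sum fun D hD => ?_)
    · rw [Finset.mem_range] at hD
      exact mul_le_mul_of_nonneg_left (hsmall D (Finset.mem_range.2 (by omega))) (pow_nonneg hq0 D)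
    · have h1 := mul_le_mul_of_nonneg_left (hbig D hD) (pow_nonneg hq0 (e + D))
      rw [add_comm D e] at h1
      calc q ^ (e + D) * rr T (e + D) a' H ≤ q ^ (e + D) * (rr T (e + D) a H - rr T D (u * a) H) := h1
        _ = q ^ (e + D) * rr T (e + D) a H - q ^ e * (q ^ D * rr T D (u * a) H) := by
          rw [pow_add]
          ring
  have htail : UU T q (D0 + e) a H - tau T q D0 e ≤ ∑ D ∈ Finset.range (D0 + 1), q ^ D * rr T D a H := by
    rw [UU, tau, Finset.range_eq_Ico, ← Finset.sum_Ico_consecutive _ (Nat.zero_le (D0 + 1)) (by omega : D0 + 1 ≤ D0 + e + 1),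
      ← Finset.range_eq_Ico]
    have : ∑ D ∈ Finset.Ico (D0 + 1) (D0 + e + 1), q ^ D * rr T D a H ≤
        ∑ D ∈ Finset.Ico (D0 + 1) (D0 + e + 1), q ^ D * (Module.finrank (ZMod p) (T.P D) : ℝ) :=
      Finset.sum_le_sum fun D _ => mul_le_mul_of_nonneg_left (rr_le T D a H) (pow_nonneg hq0 D)
    linarith
  have hqe : 0 ≤ q ^ e := pow_nonneg hq0 e
  have h1 := mul_le_mul_of_nonneg_left hc hqe
  have h2 := mul_le_mul_of_nonneg_left (mul_le_mul_of_nonneg_left htail hp1) hqe
  nlinarith [h1, h2, hsum]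

/-- the approximation of a line -/
theorem approx (T : TB p R) {m e D0 : ℕ} (g : Fin m → R) (hg : ∀ i, g i ∈ T.P e) (hgi : ∀ i, g i * g i = g i)
    {q : ℝ} (hq0 : 0 ≤ q) (hq1 : q ≤ 1) : ∀ w : ℕ, D0 + e + (e * (p - 1) * w + e) + e * (p + 1) ≤ T.d →
      ∃ a ∈ T.P (e * (p - 1) * w), (a * a = a ∧
        ∃ c : Fin m → R, (∀ i, c i ∈ T.P (e * (p - 1) * w)) ∧ 1 - a = ∑ i, c i * g i) ∧
        UU T q (D0 + e) a (Set.range g) ≤
          tau T q D0 e + (1 - (1 - 1 / (p : ℝ)) * q ^ e) ^ w * U0 T q (D0 + e) := by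
  have hp2 : 2 ≤ p := (Fact.out : p.Prime).two_le
  have hp0 : (0 : ℝ) < p := by exact_mod_cast (by omega : 0 < p)
  have hp1 : (0 : ℝ) ≤ 1 - 1 / (p : ℝ) := by
    rw [sub_nonneg, div_le_one hp0]
    exact_mod_cast (by omega : 1 ≤ p)
  have hp1' : 1 - 1 / (p : ℝ) ≤ 1 := by
    have : 0 ≤ 1 / (p : ℝ) := by positivity
    linarith
  have hqe0 : 0 ≤ q ^ e := pow_nonneg hq0 e
  have hqe1 : q ^ e ≤ 1 := pow_le_one₀ hq0 hq1
  have hth : 0 ≤ 1 - (1 - 1 / (p : ℝ)) * q ^ e := by
    have := mul_le_one₀ hp1' hqe0 hqe1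
    linarith
  have htau : 0 ≤ tau T q D0 e := Finset.sum_nonneg fun D _ => mul_nonneg (pow_nonneg hq0 D) (Nat.cast_nonneg _)
  suffices H : ∀ w : ℕ, D0 + e + (e * (p - 1) * w + e) + e * (p + 1) ≤ T.d →
      ∃ a ∈ T.P (e * (p - 1) * w), (a * a = a ∧
        ∃ c : Fin m → R, (∀ i, c i ∈ T.P (e * (p - 1) * w)) ∧ 1 - a = ∑ i, c i * g i) ∧
        UU T q (D0 + e) a (Set.range g) - tau T q D0 e ≤
          (1 - (1 - 1 / (p : ℝ)) * q ^ e) ^ w * U0 T q (D0 + e) by
    intro w hw
    obtain ⟨a, h1, h2, h3⟩ := H w hw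
    exact ⟨a, h1, h2, by linarith⟩
  intro w
  induction w with
  | zero =>
    intro hd
    refine ⟨1, by rw [mul_zero]; exact T.one, ⟨one_mul 1, 0, fun i => (T.P _).zero_mem, by simp⟩, ?_⟩
    rw [pow_zero, one_mul]
    have h1 : UU T q (D0 + e) 1 (Set.range g) ≤ U0 T q (D0 + e) := by
      refine Finset.sum_le_sum fun D hDr => mul_le_mul_of_nonneg_left ?_ (pow_nonneg hq0 D)
      rw [Finset.mem_range] at hDr
      have h2 : Module.finrank (ZMod p) ↥(T.P D ⊓ T.K) ≤ Module.finrank (ZMod p) (An T D 1 (Set.range g)) := by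
        refine Submodule.finrank_mono ?_
        intro f hf
        obtain ⟨hf1, hf2⟩ := Submodule.mem_inf.1 hf
        refine Submodule.mem_inf.2 ⟨hf1, ?_⟩
        rintro _ ⟨i, rfl⟩
        rw [one_mul]
        exact T.abs hf2 hf1 (hg i) (by omega)
      have h3 : (Module.finrank (ZMod p) ↥(T.P D ⊓ T.K) : ℝ) ≤ Module.finrank (ZMod p) (An T D 1 (Set.range g)) := by
        exact_mod_cast h2
      rw [rr, hD]
      linarith
    linarith
  | succ w ih =>
    intro hd
    have hmul : e * (p - 1) * (w + 1) = e * (p - 1) * w + e * (p - 1) := by ring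
    rw [hmul] at hd ⊢
    obtain ⟨a, ha, ⟨haa, c, hc, hca⟩, hU⟩ := ih (by omega)
    obtain ⟨c', hc'⟩ := step T (A := e * (p - 1) * w) (D0 := D0) g hg hgi hq0 ha (by omega)
    set u : R := ∑ i, c' i • g i with hu
    have huP : u ∈ T.P e := Submodule.sum_mem _ fun i _ => (T.P e).smul_mem _ (hg i)
    refine ⟨(1 - u ^ (p - 1)) * a, ?_, ⟨?_, fun i => c i + c' i • (a * u ^ (p - 2)), fun i => ?_, ?_⟩, ?_⟩
    · rw [add_comm]
      exact T.mul ((T.P _).sub_mem (T.mono (Nat.zero_le _) T.one) (T.pw huP (p - 1))) ha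
    · have h2 : u ^ (p - 1) = u ^ (p - 2) * u := by
        rw [← pow_succ]
        congr 1
        omega
      have h3 : u * u ^ (p - 1) = u := by
        rw [← pow_succ', Nat.sub_add_cancel (by omega : 1 ≤ p), T.fro]
      have h4 : u ^ (p - 1) * u ^ (p - 1) = u ^ (p - 1) := by
        calc u ^ (p - 1) * u ^ (p - 1) = u ^ (p - 2) * u * u ^ (p - 1) := by rw [← h2]
          _ = u ^ (p - 2) * (u * u ^ (p - 1)) := by ring
          _ = u ^ (p - 1) := by rw [h3, ← h2]
      calc (1 - u ^ (p - 1)) * a * ((1 - u ^ (p - 1)) * a)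
          = (1 - u ^ (p - 1) - u ^ (p - 1) + u ^ (p - 1) * u ^ (p - 1)) * (a * a) := by ring
        _ = (1 - u ^ (p - 1)) * a := by rw [h4, haa]; ring
    · refine (T.P _).add_mem (T.mono (Nat.le_add_right _ _) (hc i)) ((T.P _).smul_mem _ ?_)
      refine T.mono ?_ (T.mul ha (T.pw huP (p - 2)))
      exact Nat.add_le_add_left (Nat.mul_le_mul_left e (by omega)) _
    · have h1 : 1 - (1 - u ^ (p - 1)) * a = (1 - a) + a * u ^ (p - 2) * u := by
        have h2 : u ^ (p - 1) = u ^ (p - 2) * u := by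
          rw [← pow_succ]
          congr 1
          omega
        rw [h2]
        ring
      rw [h1, hca]
      rw [show a * u ^ (p - 2) * u = ∑ i, (c' i • (a * u ^ (p - 2))) * g i by
        rw [hu, Finset.mul_sum]
        exact Finset.sum_congr rfl fun i _ => by rw [mul_smul_comm, smul_mul_assoc]]
      rw [← Finset.sum_add_distrib]
      exact Finset.sum_congr rfl fun i _ => by rw [add_mul]
    · refine hc'.trans ?_
      rw [pow_succ]
      have h1 := mul_le_mul_of_nonneg_left hU hth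
      linarith

end H85SD
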