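import Pool.Agent.H85.SD.Deg

/-!
Row SDXor of project MP_28250c_SD (helper85).  Semantic inferences of resolution over parities are local.

Notation: for `g = (a, b) : Finset (Fin n) × ZMod 2` put `fx g := fun x => ∑_(i ∈ a) x_i + b + 1` (so `fx g x = 1` iff the
equation `g` holds at `x`; `Cond 1 (fx g)`).  `AF` = functions of degree at most 1 = `PP 2 n 1` (affine functions).

DUALITY (`dual`): `E ⊆ PP 2 n 1`, `V = {x | ∀ g ∈ E, g x = 0}`.
 (a) `V` empty ⇒ `1 ∈ span E`.  (b) `V` nonempty, `g ∈ PP 2 n 1`, `g = 0` on `V` ⇒ `g ∈ span E`.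
 Proof.  If `u ∉ S := span E` there is a linear functional `λ` on all functions with `λ = 0` on `S`, `λ u = 1`
 (`Submodule.exists_le_ker_of_notMem` or `exists_dual_forall_apply_eq_zero_iff`).  Put `v i := λ (x_i)`, `c := λ 1`.  An affine
 `h = h_0 + ∑ h_i x_i` has `λ h = c h_0 + ∑ h_i v_i`.  If `c = 1`: `λ h = h(v)` (point with coordinates `v`), so `v ∈ V`, and
 `u(v) = 1`.  If `c = 0`: `λ h = h(x + v) - h(x)` for every point `x` (sum in `F_2^n`), so for `x ∈ V` also `x + v ∈ V`,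
 and `u(x+v) = u(x) + 1`.  (a): `u = 1`, then `c = 1`, so `v ∈ V`, contradiction.  (b): `u = g`.
INFERENCE (`xor_refutes`): translate a line `L` to `E = fx '' L`, `h = 0`, `t = 0`, `e = 1`, `f = 2`, `s = max k 1`.
 Let `V_C` be the false set of the conclusion.
 * `V_C = ∅`: `J = ∅`, `Jc = ∅`, `B = {1}` by (a).
 * clause `j`, `V_C` nonempty inside the false set of the clause: `Jc = {j}`, `J = ∅`, `B` = the indicator functions of the
   literals of the clause; they vanish on `V_C`, so they are in the span by (b).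
 * `V_C ⊆ V_1` (false set of premise 1): `J = {j}`, `A = ∅`, `B = ∅`: every `g` of the premise vanishes on `V_C`, use (b).
   Same for `V_2`.
 * otherwise there are `ℓ ∈ E_1`, `ℓ' ∈ E_2`, not identically 0 on `V_C`.  `ℓ ℓ' = 0` on `V_C` (`V_C ⊆ V_1 ∪ V_2`).  If
   `x ∈ V_C` had `ℓ x = ℓ' x = 0`, take `y, z ∈ V_C` with `ℓ y = 1`, `ℓ' z = 1` (so `ℓ' y = 0`, `ℓ z = 0`); then `x+y+z ∈ V_C`
   and `ℓ = ℓ' = 1` there, contradiction.  So `ℓ' = 1 + ℓ` on `V_C`, `V_C ∩ {ℓ = 0} ⊆ V_1`, `V_C ∩ {ℓ' = 0} ⊆ V_2`, both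
   nonempty, so by (b) `E_1 ⊆ span (E_C ∪ {ℓ})`, `E_2 ⊆ span (E_C ∪ {ℓ'})`; `A_1 = {ℓ}`, `A_2 = {ℓ'}`, `B = {ℓ + ℓ' + 1}`
   (vanishes on `V_C`, so in `span E_C`).  If `j = k` the premises are the same line: then `V_C ⊆ V_1`.
-/

set_option autoImplicit false
open scoped Classical

namespace SizeDegree

private def bz (b : Bool) : ZMod 2 := if b then 1 else 0

private theorem bz_xor (a b : Bool) : bz (xor a b) = bz a + bz b := by
  cases a <;> cases b <;> decide

private theorem bz_dec (a : ZMod 2) : bz (decide (a = 1)) = a := by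
  revert a
  decide

private theorem z2 (a : ZMod 2) : a = 0 ∨ a = 1 := by
  revert a
  decide

private theorem z2n {a : ZMod 2} (h : a ≠ 0) : a = 1 := (z2 a).resolve_left h

private def xi {n : ℕ} (i : Fin n) : Pt n → ZMod 2 := fun x => bz (x i)

private theorem xi_mem {n : ℕ} (i : Fin n) : (xi i : Pt n → ZMod 2) ∈ PP 2 n 1 := by
  have h := PP_lit (p := 2) (n := n) (i, true)
  exact h

private theorem aff_of {n : ℕ} {g : Pt n → ZMod 2} (hg : g ∈ PP 2 n 1) :
    ∃ (c : ZMod 2) (a : Fin n → ZMod 2), g = c • (1 : Pt n → ZMod 2) + ∑ i, a i • xi i := by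
  obtain ⟨a, ha⟩ := mem_PP.mp hg
  refine ⟨a ∅, fun i => a {i}, ?_⟩
  have hf : (Finset.univ.filter (fun T : Finset (Fin n) => T.card ≤ 1)) =
      insert ∅ (Finset.univ.image (fun i : Fin n => ({i} : Finset (Fin n)))) := by
    ext T
    rw [Finset.mem_filter, Finset.mem_insert, Finset.mem_image]
    constructor
    · rintro ⟨-, h⟩
      rcases Nat.le_one_iff_eq_zero_or_eq_one.mp h with h | h
      · exact Or.inl (Finset.card_eq_zero.mp h)
      · obtain ⟨i, rfl⟩ := Finset.card_eq_one.mp h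
        exact Or.inr ⟨i, Finset.mem_univ _, rfl⟩
    · rintro (rfl | ⟨i, -, rfl⟩)
      · exact ⟨Finset.mem_univ _, by simp⟩
      · exact ⟨Finset.mem_univ _, by simp⟩
  funext x
  rw [ha, hf, Finset.sum_insert, Finset.sum_image]
  · rw [Pi.add_apply, Pi.smul_apply, Finset.sum_apply]
    congr 1
    refine Finset.sum_congr rfl fun i _ => ?_
    rw [Finset.prod_singleton, Pi.smul_apply, smul_eq_mul, xi, bz]
  · intro i _ j _ h
    exact Finset.singleton_injective h
  · intro h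
    obtain ⟨i, -, hi⟩ := Finset.mem_image.mp h
    exact Finset.singleton_ne_empty i hi

private theorem aff_val {n : ℕ} (c : ZMod 2) (a : Fin n → ZMod 2) (x : Pt n) :
    (c • (1 : Pt n → ZMod 2) + ∑ i, a i • xi i) x = c + ∑ i, a i * bz (x i) := by
  rw [Pi.add_apply, Pi.smul_apply, Finset.sum_apply, Pi.one_apply, smul_eq_mul, mul_one]
  rfl

private theorem aff3 {n : ℕ} {g : Pt n → ZMod 2} (hg : g ∈ PP 2 n 1) (x y z : Pt n) :
    g (fun i => xor (x i) (xor (y i) (z i))) = g x + g y + g z := by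
  obtain ⟨c, a, rfl⟩ := aff_of hg
  simp only [aff_val, bz_xor, mul_add, Finset.sum_add_distrib]
  have h2 : c + c = 0 := CharTwo.add_self_eq_zero c
  linear_combination (-1 : ZMod 2) * h2

/-- values of a linear functional on affine functions -/
private theorem lam {n : ℕ} (l : (Pt n → ZMod 2) →ₗ[ZMod 2] ZMod 2) {g : Pt n → ZMod 2} (hg : g ∈ PP 2 n 1) :
    (l 1 = 1 → l g = g (fun i => decide (l (xi i) = 1))) ∧
    (l 1 = 0 → ∀ x : Pt n, l g = g (fun i => xor (x i) (decide (l (xi i) = 1))) + g x) := by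
  obtain ⟨c, a, rfl⟩ := aff_of hg
  have hl : l (c • (1 : Pt n → ZMod 2) + ∑ i, a i • xi i) = c * l 1 + ∑ i, a i * l (xi i) := by
    rw [map_add, map_smul, map_sum, smul_eq_mul]
    congr 1
    refine Finset.sum_congr rfl fun i _ => ?_
    rw [map_smul, smul_eq_mul]
  constructor
  · intro h1
    rw [hl, aff_val, h1, mul_one]
    congr 1
    refine Finset.sum_congr rfl fun i _ => ?_
    rw [bz_dec]
  · intro h1 x
    rw [hl, h1, mul_zero, zero_add]
    simp only [aff_val, bz_xor, mul_add, Finset.sum_add_distrib, bz_dec]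
    have h2 : c + c = 0 := CharTwo.add_self_eq_zero c
    have h3 : ∑ i, a i * bz (x i) + ∑ i, a i * bz (x i) = 0 := CharTwo.add_self_eq_zero _
    linear_combination (-1 : ZMod 2) * h2 + (-1 : ZMod 2) * h3

private theorem sep {n : ℕ} {E : Set (Pt n → ZMod 2)} {g : Pt n → ZMod 2} (h : g ∉ Submodule.span (ZMod 2) E) :
    ∃ l : (Pt n → ZMod 2) →ₗ[ZMod 2] ZMod 2, l g ≠ 0 ∧ ∀ f ∈ E, l f = 0 := by
  obtain ⟨l, h1, h2⟩ := Submodule.exists_dual_map_eq_bot_of_notMem h inferInstance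
  refine ⟨l, h1, fun f hf => ?_⟩
  have h3 : l f ∈ (Submodule.span (ZMod 2) E).map l := Submodule.mem_map_of_mem (Submodule.subset_span hf)
  rw [h2] at h3
  exact (Submodule.mem_bot _).mp h3

private theorem dual_a {n : ℕ} {E : Set (Pt n → ZMod 2)} (hE : ∀ f ∈ E, f ∈ PP 2 n 1)
    (hV : ∀ x, ∃ f ∈ E, f x ≠ 0) : (1 : Pt n → ZMod 2) ∈ Submodule.span (ZMod 2) E := by
  by_contra h
  obtain ⟨l, h1, h2⟩ := sep h
  obtain ⟨f, hf, hx⟩ := hV (fun i => decide (l (xi i) = 1))
  exact hx (by rw [← (lam l (hE f hf)).1 (z2n h1), h2 f hf])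

private theorem dual_b {n : ℕ} {E : Set (Pt n → ZMod 2)} (hE : ∀ f ∈ E, f ∈ PP 2 n 1)
    {x0 : Pt n} (hx0 : ∀ f ∈ E, f x0 = 0) {g : Pt n → ZMod 2} (hg : g ∈ PP 2 n 1)
    (hV : ∀ x, (∀ f ∈ E, f x = 0) → g x = 0) : g ∈ Submodule.span (ZMod 2) E := by
  by_contra h
  obtain ⟨l, h1, h2⟩ := sep h
  rcases z2 (l 1) with h3 | h3
  · have h4 : ∀ f ∈ E, f (fun i => xor (x0 i) (decide (l (xi i) = 1))) = 0 := by
      intro f hf
      have h5 := (lam l (hE f hf)).2 h3 x0
      rw [h2 f hf, hx0 f hf, add_zero] at h5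
      exact h5.symm
    have h6 := (lam l hg).2 h3 x0
    rw [hV _ h4, hV _ hx0, add_zero] at h6
    exact h1 h6
  · have h4 : ∀ f ∈ E, f (fun i => decide (l (xi i) = 1)) = 0 := by
      intro f hf
      rw [← (lam l (hE f hf)).1 h3, h2 f hf]
    have h6 := (lam l hg).1 h3
    rw [hV _ h4] at h6
    exact h1 h6

/-- the function of an equation; it is 1 where the equation is true -/
private def fx {n : ℕ} (g : Finset (Fin n) × ZMod 2) : Pt n → ZMod 2 :=
  fun x => ∑ i ∈ g.1, (if x i then (1 : ZMod 2) else 0) + g.2 + 1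

private theorem fx_one {n : ℕ} (g : Finset (Fin n) × ZMod 2) (x : Pt n) :
    fx g x = 1 ↔ ∑ i ∈ g.1, (if x i then (1 : ZMod 2) else 0) = g.2 := by
  rw [fx]
  generalize ∑ i ∈ g.1, (if x i then (1 : ZMod 2) else 0) = u
  generalize g.2 = v
  revert u v
  decide

private theorem fx_mem {n : ℕ} (g : Finset (Fin n) × ZMod 2) : (fx g : Pt n → ZMod 2) ∈ PP 2 n 1 := by
  have e : (fx g : Pt n → ZMod 2) = ∑ i ∈ g.1, xi i + (g.2 + 1) • (1 : Pt n → ZMod 2) := by
    funext x
    rw [fx, Pi.add_apply, Pi.smul_apply, Finset.sum_apply, Pi.one_apply, smul_eq_mul, mul_one, add_assoc]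
    rfl
  rw [e]
  refine Submodule.add_mem _ (Submodule.sum_mem _ fun i _ => xi_mem i) (Submodule.smul_mem _ _ ?_)
  exact PP_mono (Nat.zero_le 1) PP_one

private theorem fxm {n : ℕ} {L : XorLine n} : ∀ f ∈ fx '' L, f ∈ PP 2 n 1 := by
  rintro _ ⟨g, -, rfl⟩
  exact fx_mem g

private theorem hol {n : ℕ} {L : XorLine n} {x : Pt n} : L.Holds x ↔ ∃ f ∈ fx '' L, f x = 1 := by
  constructor
  · rintro ⟨g, hg, h⟩
    exact ⟨fx g, ⟨g, hg, rfl⟩, (fx_one g x).mpr h⟩
  · rintro ⟨_, ⟨g, hg, rfl⟩, h⟩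
    exact ⟨g, hg, (fx_one g x).mp h⟩

private theorem nhol {n : ℕ} {L : XorLine n} {x : Pt n} : ¬ L.Holds x ↔ ∀ f ∈ fx '' L, f x = 0 := by
  rw [hol]
  constructor
  · intro h f hf
    rcases z2 (f x) with h1 | h1
    · exact h1
    · exact (h ⟨f, hf, h1⟩).elim
  · rintro h ⟨f, hf, h1⟩
    rw [h f hf] at h1
    exact absurd h1 (by decide)

private theorem cond1 {n : ℕ} {g : Pt n → ZMod 2} (hg : g ∈ PP 2 n 1) : Cond 1 g := ⟨mem_PP.mp hg, fun x => z2 _⟩

private noncomputable def lin {n : ℕ} (L : XorLine n) : Line 2 n 1 0 where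
  E := fx '' L
  hE := fun g hg => cond1 (fxm g hg)
  h := 0
  hh := ⟨mem_PP.mp (Submodule.zero_mem _), fun x => Or.inl rfl⟩

private theorem two {n : ℕ} {L1 L2 C : XorLine n} (hs : ∀ x, L1.Holds x → L2.Holds x → C.Holds x) {y z : Pt n}
    (hy : ¬ C.Holds y) (hy1 : L1.Holds y) (hz : ¬ C.Holds z) (hz2 : L2.Holds z) :
    ∃ u v : Pt n → ZMod 2, u ∈ PP 2 n 1 ∧ v ∈ PP 2 n 1 ∧
      fx '' L1 ⊆ Submodule.span (ZMod 2) (fx '' C ∪ {u}) ∧ fx '' L2 ⊆ Submodule.span (ZMod 2) (fx '' C ∪ {v}) ∧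
      u + v + 1 ∈ Submodule.span (ZMod 2) (fx '' C) := by
  obtain ⟨u, hu, huy⟩ := hol.mp hy1
  obtain ⟨v, hv, hvz⟩ := hol.mp hz2
  have key : ∀ x, ¬ C.Holds x → u x = 0 ∨ v x = 0 := by
    intro x hx
    rcases z2 (u x) with h1 | h1
    · exact Or.inl h1
    · rcases z2 (v x) with h2 | h2
      · exact Or.inr h2
      · exact (hx (hs x (hol.mpr ⟨u, hu, h1⟩) (hol.mpr ⟨v, hv, h2⟩))).elim
  have hvy : v y = 0 := (key y hy).resolve_left (by rw [huy]; decide)
  have huz : u z = 0 := (key z hz).resolve_right (by rw [hvz]; decide)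
  have hC3 : ∀ x, ¬ C.Holds x → ¬ C.Holds (fun i => xor (x i) (xor (y i) (z i))) := by
    intro x hx
    rw [nhol] at hx hy hz ⊢
    intro f hf
    rw [aff3 (fxm f hf), hx f hf, hy f hf, hz f hf]
    decide
  have sum1 : ∀ x, ¬ C.Holds x → u x + v x = 1 := by
    intro x hx
    have h3 := key _ (hC3 x hx)
    rw [aff3 (fxm u hu), aff3 (fxm v hv), huy, hvy, huz, hvz] at h3
    have h4 := key x hx
    revert h3 h4
    generalize u x = a
    generalize v x = b
    revert a b
    decide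
  refine ⟨u, v, fxm u hu, fxm v hv, ?_, ?_, ?_⟩
  · intro g hg
    refine dual_b (x0 := z) ?_ ?_ (fxm g hg) ?_
    · rintro f (hf | hf)
      · exact fxm f hf
      · rw [Set.mem_singleton_iff.mp hf]
        exact fxm u hu
    · rintro f (hf | hf)
      · exact nhol.mp hz f hf
      · rw [Set.mem_singleton_iff.mp hf]
        exact huz
    · intro x hx
      have hxC : ¬ C.Holds x := nhol.mpr fun f hf => hx f (Or.inl hf)
      have hux : u x = 0 := hx u (Or.inr rfl)
      have hvx : v x = 1 := by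
        have := sum1 x hxC
        rwa [hux, zero_add] at this
      have hx1 : ¬ L1.Holds x := fun h => hxC (hs x h (hol.mpr ⟨v, hv, hvx⟩))
      exact nhol.mp hx1 g hg
  · intro g hg
    refine dual_b (x0 := y) ?_ ?_ (fxm g hg) ?_
    · rintro f (hf | hf)
      · exact fxm f hf
      · rw [Set.mem_singleton_iff.mp hf]
        exact fxm v hv
    · rintro f (hf | hf)
      · exact nhol.mp hy f hf
      · rw [Set.mem_singleton_iff.mp hf]
        exact hvy
    · intro x hx
      have hxC : ¬ C.Holds x := nhol.mpr fun f hf => hx f (Or.inl hf)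
      have hvx : v x = 0 := hx v (Or.inr rfl)
      have hux : u x = 1 := by
        have := sum1 x hxC
        rwa [hvx, add_zero] at this
      have hx1 : ¬ L2.Holds x := fun h => hxC (hs x (hol.mpr ⟨u, hu, hux⟩) h)
      exact nhol.mp hx1 g hg
  · refine dual_b (x0 := y) fxm (nhol.mp hy) ?_ ?_
    · exact Submodule.add_mem _ (Submodule.add_mem _ (fxm u hu) (fxm v hv)) (PP_mono (Nat.zero_le 1) PP_one)
    · intro x hx
      have h := sum1 x (nhol.mpr hx)
      rw [Pi.add_apply, Pi.add_apply, Pi.one_apply, h]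
      decide

private theorem inf_empty {n m k : ℕ} (Φ : Fin m → Clause n) (l : ℕ → Line 2 n 1 0) {C : XorLine n}
    (hC : ∀ x, C.Holds x) : Infers (max k 1) Φ ∅ l ∅ (lin C) := by
  refine ⟨fun _ => ∅, {1}, ?_, ?_, ?_, ?_⟩
  · intro j hj
    exact absurd hj (Finset.notMem_empty j)
  · rw [Finset.card_singleton]
    exact le_max_right _ _
  · intro g hg
    rw [Finset.mem_singleton.mp hg]
    refine ⟨cond1 (PP_mono (Nat.zero_le 1) PP_one), ?_⟩
    refine dual_a fxm fun x => ?_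
    obtain ⟨f, hf, hx⟩ := hol.mp (hC x)
    exact ⟨f, hf, by rw [hx]; decide⟩
  · intro x _ _
    exact Or.inr ⟨1, Finset.mem_singleton_self _, rfl⟩

private theorem inf_clause {n m k : ℕ} (Φ : Fin m → Clause n) (hk : ∀ j, (Φ j).card ≤ k) (l : ℕ → Line 2 n 1 0)
    {C : XorLine n} {y : Pt n} (hy : ¬ C.Holds y) (j : Fin m) (hj : ∀ x, (Φ j).Holds x → C.Holds x) :
    Infers (max k 1) Φ {j} l ∅ (lin C) := by
  refine ⟨fun _ => ∅, (Φ j).image (fun a => fun x : Pt n => if x a.1 = a.2 then (1 : ZMod 2) else 0), ?_, ?_, ?_, ?_⟩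
  · intro j hj
    exact absurd hj (Finset.notMem_empty j)
  · exact Finset.card_image_le.trans ((hk j).trans (le_max_left _ _))
  · intro g hg
    obtain ⟨a, ha, rfl⟩ := Finset.mem_image.mp hg
    refine ⟨cond1 (PP_lit a), ?_⟩
    refine dual_b fxm (nhol.mp hy) (PP_lit a) fun x hx => ?_
    show (if x a.1 = a.2 then (1 : ZMod 2) else 0) = 0
    rw [if_neg]
    intro hxa
    exact nhol.mpr hx (hj x ⟨a, ha, hxa⟩)
  · intro x hx _
    obtain ⟨a, ha, hxa⟩ := hx j (Finset.mem_singleton_self j)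
    exact Or.inr ⟨_, Finset.mem_image_of_mem _ ha, if_pos hxa⟩

private theorem inf_one {n m k : ℕ} (Φ : Fin m → Clause n) (l : ℕ → XorLine n)
    {C : XorLine n} {y : Pt n} (hy : ¬ C.Holds y) (j : ℕ) (hj : ∀ x, ¬ C.Holds x → ¬ (l j).Holds x) :
    Infers (max k 1) Φ ∅ (fun i => lin (l i)) {j} (lin C) := by
  refine ⟨fun _ => ∅, ∅, ?_, ?_, ?_, ?_⟩
  · intro i hi
    rw [Finset.mem_singleton.mp hi]
    refine ⟨by simp, fun g hg => absurd hg (Finset.notMem_empty g), ?_⟩
    intro g hg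
    have h : g ∈ Submodule.span (ZMod 2) (fx '' C) :=
      dual_b fxm (nhol.mp hy) (fxm g hg) fun x hx => nhol.mp (hj x (nhol.mpr hx)) g hg
    exact Submodule.span_mono Set.subset_union_left h
  · simp
  · intro g hg
    exact absurd hg (Finset.notMem_empty g)
  · intro x _ hx
    rcases hx j (Finset.mem_singleton_self j) with h | ⟨g, hg, -⟩
    · have h' : (0 : ZMod 2) = 1 := h
      exact absurd h' (by decide)
    · exact absurd hg (Finset.notMem_empty g)

private theorem inf_two {n m k : ℕ} (Φ : Fin m → Clause n) (l : ℕ → XorLine n)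
    {C : XorLine n} {j i : ℕ} (hs : ∀ x, (l j).Holds x → (l i).Holds x → C.Holds x) {y z : Pt n}
    (hy : ¬ C.Holds y) (hy1 : (l j).Holds y) (hz : ¬ C.Holds z) (hz2 : (l i).Holds z) :
    Infers (max k 1) Φ ∅ (fun i => lin (l i)) {j, i} (lin C) := by
  have hne : i ≠ j := by
    rintro rfl
    exact hy (hs y hy1 hy1)
  obtain ⟨u, v, hu, hv, h1, h2, h3⟩ := two hs hy hy1 hz hz2
  refine ⟨fun a => if a = j then {u} else {v}, {u + v + 1}, ?_, ?_, ?_, ?_⟩
  · intro a ha
    rcases Finset.mem_insert.mp ha with rfl | ha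
    · simp only [if_true]
      refine ⟨by rw [Finset.card_singleton]; exact le_max_right _ _, ?_, ?_⟩
      · intro g hg
        rw [Finset.mem_singleton.mp hg]
        exact cond1 hu
      · rw [Finset.coe_singleton]
        exact h1
    · rw [Finset.mem_singleton.mp ha]
      simp only [if_neg hne]
      refine ⟨by rw [Finset.card_singleton]; exact le_max_right _ _, ?_, ?_⟩
      · intro g hg
        rw [Finset.mem_singleton.mp hg]
        exact cond1 hv
      · rw [Finset.coe_singleton]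
        exact h2
  · rw [Finset.card_singleton]
    exact le_max_right _ _
  · intro g hg
    rw [Finset.mem_singleton.mp hg]
    refine ⟨cond1 ?_, h3⟩
    exact Submodule.add_mem _ (Submodule.add_mem _ hu hv) (PP_mono (Nat.zero_le 1) PP_one)
  · intro x _ hx
    have hj := hx j (Finset.mem_insert_self _ _)
    have hi := hx i (Finset.mem_insert_of_mem (Finset.mem_singleton_self _))
    simp only [if_true] at hj
    simp only [if_neg hne] at hi
    have e0 : ¬ ((0 : Pt n → ZMod 2) x = 1) := by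
      show ¬ ((0 : ZMod 2) = 1)
      decide
    have hux : u x = 1 := by
      rcases hj with h | ⟨g, hg, h⟩
      · exact (e0 h).elim
      · rwa [Finset.mem_singleton.mp hg] at h
    have hvx : v x = 1 := by
      rcases hi with h | ⟨g, hg, h⟩
      · exact (e0 h).elim
      · rwa [Finset.mem_singleton.mp hg] at h
    refine Or.inr ⟨_, Finset.mem_singleton_self _, ?_⟩
    rw [Pi.add_apply, Pi.add_apply, Pi.one_apply, hux, hvx]
    decide

theorem xor_refutes {n m k : ℕ} (Φ : Fin m → Clause n) (hk : ∀ j, (Φ j).card ≤ k) {N : ℕ} (h : XorRefutes Φ N) :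
    Refutes 2 1 0 2 (max k 1) Φ N := by
  obtain ⟨l, hN, hlast, hinf⟩ := h
  refine ⟨fun i => lin (l i), hN, ?_, ?_⟩
  · intro x hx
    apply hlast x
    rw [hol]
    rcases hx with h | h
    · exact h
    · have h' : (0 : ZMod 2) = 1 := h
      exact absurd h' (by decide)
  · intro i hi
    by_cases hC : ∀ x, (l i).Holds x
    · exact ⟨∅, ∅, by simp, by simp, fun j hj => absurd hj (Finset.notMem_empty j), inf_empty Φ _ hC⟩
    obtain ⟨y, hy⟩ := not_forall.mp hC
    rcases hinf i hi with ⟨j, hj⟩ | ⟨j, hj, r, hr, hs⟩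
    · exact ⟨∅, {j}, by simp, by simp, fun j hj => absurd hj (Finset.notMem_empty j), inf_clause Φ hk _ hy j hj⟩
    · by_cases h1 : ∀ x, ¬ (l i).Holds x → ¬ (l j).Holds x
      · refine ⟨{j}, ∅, by simp, by simp, ?_, inf_one Φ l hy j h1⟩
        intro a ha
        rw [Finset.mem_singleton.mp ha]
        exact hj
      by_cases h2 : ∀ x, ¬ (l i).Holds x → ¬ (l r).Holds x
      · refine ⟨{r}, ∅, by simp, by simp, ?_, inf_one Φ l hy r h2⟩
        intro a ha
        rw [Finset.mem_singleton.mp ha]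
        exact hr
      push Not at h1 h2
      obtain ⟨y1, hy1, hy2⟩ := h1
      obtain ⟨z1, hz1, hz2⟩ := h2
      refine ⟨{j, r}, ∅, Finset.card_le_two, by simp, ?_, inf_two Φ l hs hy1 hy2 hz1 hz2⟩
      intro a ha
      rcases Finset.mem_insert.mp ha with rfl | ha
      · exact hj
      · rw [Finset.mem_singleton.mp ha]
        exact hr

end SizeDegree
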