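import Pool.Agent.H85.SD.Ex
import Pool.Agent.H85.SD.Num
import Pool.Agent.H85.SD.Xor

/-!
helper85: the size-degree theorem, lines form.
-/

set_option autoImplicit false
open scoped Classical

namespace SizeDegree

open H85SD

/-- the tail of the concrete filtration -/
theorem tau_le {p : ℕ} [Fact p.Prime] {n m : ℕ} (Φ : Fin m → Clause n) (d : ℕ) {q : ℝ} (hq : 0 < q) (hq1 : 2 * q ≤ 1)
    (D0 e : ℕ) : tau (TT p Φ d) q D0 e ≤
      ∑ D ∈ Finset.Ico (D0 + 1) (D0 + e + 1), (1 / 2 : ℝ) ^ D * Real.exp (2 * q * n) :=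
  Finset.sum_le_sum fun _ _ => tail_le hq hq1

/-- the counting bound for the lines form -/
theorem lines_count {p : ℕ} [Fact p.Prime] {n m e t f s k D0 w d N : ℕ} (Φ : Fin m → Clause n)
    (hk : ∀ j, (Φ j).card ≤ k) (h1 : ¬ Derives (p := p) Φ d 1) (href : Refutes p e t f s Φ N)
    {q : ℝ} (hq : 0 < q) (hq1 : 2 * q ≤ 1)
    (hd : D0 + e + 2 * (e * (p - 1) * w + e) + e * (p + 1) + (f + 3) * (t + (s + 1) * e + k + 1) ≤ d) :
    1 ≤ (N : ℝ) * (∑ D ∈ Finset.Ico (D0 + 1) (D0 + e + 1), (1 / 2 : ℝ) ^ D * Real.exp (2 * q * n) +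
        (1 - (1 - 1 / (p : ℝ)) * q ^ e) ^ w) := by
  by_contra hcon
  push Not at hcon
  obtain ⟨l, hN1, hlast, hl⟩ := href
  have htau := tau_le (p := p) Φ d hq hq1 D0 e
  have hN0 : (0 : ℝ) ≤ N := Nat.cast_nonneg _
  obtain ⟨D, F, a, hD, hF, hFK, ha⟩ := exists_f (TT p Φ d) (ι := Fin N) (fun i => (l i).E) (e := e) (D0 := D0) (w := w)
    (fun i g hg => ((l i).hE g hg).1) (fun i g hg => by
      funext x
      rcases ((l i).hE g hg).2 x with h | h <;> simp [h]) h1 (by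
      change D0 + e + (e * (p - 1) * w + e) + e * (p + 1) ≤ d
      omega) hq (by linarith) (by
      rw [Fintype.card_fin]
      refine lt_of_le_of_lt (mul_le_mul_of_nonneg_left ?_ hN0) hcon
      linarith)
  let b : ℕ → Pt n → ZMod p := fun i => if h : i < N then a ⟨i, h⟩ else 0
  have hb : ∀ i (h : i < N), b i = a ⟨i, h⟩ := fun i h => dif_pos h
  have claim : ∀ i, i < N → F * (b i * (1 - (l i).h)) ∈ KK p Φ d := by
    intro i
    induction i using Nat.strong_induction_on with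
    | _ i ih =>
      intro hi
      obtain ⟨J, Jc, hJ, hJc, hJi, hinf⟩ := hl i hi
      have hJN : ∀ j ∈ J, j < N := fun j hj => lt_trans (hJi j hj) hi
      refine sound_step (W := e * (p - 1) * w) (D := D) Φ hk l J Jc hJ hJc hinf hF b ?_ ?_ ?_ ?_ ?_
      · intro j hj
        have hjN : j < N := by
          rcases Finset.mem_insert.1 hj with h | h
          · rw [h]; exact hi
          · exact hJN j h
        rw [hb j hjN]
        exact (ha ⟨j, hjN⟩).1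
      · intro j hj
        rw [hb j (hJN j hj)]
        exact (ha ⟨j, hJN j hj⟩).2.2.1
      · intro g hg
        rw [hb i hi]
        exact (ha ⟨i, hi⟩).2.2.2 g hg
      · intro j hj
        exact ih j (hJi j hj) (hJN j hj)
      · omega
  have hlt : N - 1 < N := by omega
  have hc := claim (N - 1) hlt
  have hh : (l (N - 1)).h = 0 := by
    funext x
    exact ((l (N - 1)).hh.2 x).resolve_right fun h => hlast x (Or.inr h)
  have hE : ∀ g ∈ (l (N - 1)).E, g = 0 := by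
    intro g hg
    funext x
    exact (((l (N - 1)).hE g hg).2 x).resolve_right fun h => hlast x (Or.inl ⟨g, hg, h⟩)
  obtain ⟨mm, c, g, _, hg, hsum⟩ := (ha ⟨N - 1, hlt⟩).2.2.1
  have ha1 : b (N - 1) = 1 := by
    rw [hb _ hlt]
    have : ∑ r, c r * g r = 0 := Finset.sum_eq_zero fun r _ => by rw [hE _ (hg r), mul_zero]
    rw [this, sub_eq_zero] at hsum
    exact hsum.symm
  rw [ha1, hh, sub_zero, mul_one, mul_one] at hc
  exact hFK hc

/-- the size-degree theorem, lines form -/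
theorem lines_bound (p : ℕ) [Fact p.Prime] (e f : ℕ) (he : 1 ≤ e) : ∃ C : ℕ, 0 < C ∧
    ∀ (n d k s t m N : ℕ) (Φ : Fin m → Clause n), d ≤ n → C * (k + s + t + 1) ≤ d → (∀ j, (Φ j).card ≤ k) →
      ¬ Derives (p := p) Φ d 1 → Refutes p e t f s Φ N →
      (2 : ℝ) ^ ((d : ℝ) ^ (e + 1) / (C * (n : ℝ) ^ e)) ≤ 4 * N := by
  obtain ⟨C, hC, h⟩ := num p e f (Fact.out : p.Prime).two_le he
  refine ⟨C, hC, ?_⟩
  intro n d k s t m N Φ hdn hCd hk h1 href
  obtain ⟨D0, w, q, hq, hq1, hd, hnum⟩ := h n d k s t hdn hCd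
  have h2 := lines_count Φ hk h1 href hq hq1 hd
  have hN0 : (0 : ℝ) ≤ N := Nat.cast_nonneg _
  have h3 : (1 : ℝ) ≤ N * (4 * (2 : ℝ) ^ (-((d : ℝ) ^ (e + 1) / (C * (n : ℝ) ^ e)))) :=
    h2.trans (mul_le_mul_of_nonneg_left hnum hN0)
  have h4 : (0 : ℝ) < (2 : ℝ) ^ ((d : ℝ) ^ (e + 1) / (C * (n : ℝ) ^ e)) := Real.rpow_pos_of_pos (by norm_num) _
  rw [Real.rpow_neg (by norm_num)] at h3
  calc (2 : ℝ) ^ ((d : ℝ) ^ (e + 1) / (C * (n : ℝ) ^ e))
      ≤ (2 : ℝ) ^ ((d : ℝ) ^ (e + 1) / (C * (n : ℝ) ^ e)) *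
        (N * (4 * ((2 : ℝ) ^ ((d : ℝ) ^ (e + 1) / (C * (n : ℝ) ^ e)))⁻¹)) := le_mul_of_one_le_right h4.le h3
    _ = 4 * N := by field_simp

end SizeDegree
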