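import Mathlib

/-!
helper85: Razborov-Smolensky lemma relative to a truncated ideal `K` over `F_p` (see /team-store/H85_SizeDegree.md).
`R` is a finite dimensional algebra over `ZMod p` in which `x ^ p = x`, filtered by `P`; `K` is an ideal up to degree `d`.
-/

set_option autoImplicit false
open scoped Classical

namespace H85SD

/-- a truncated ideal `K` in a filtered ring of functions -/
structure TB (p : ℕ) (R : Type) [CommRing R] [Algebra (ZMod p) R] where
  P : ℕ → Submodule (ZMod p) R
  K : Submodule (ZMod p) R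
  d : ℕ
  mono : ∀ {a b : ℕ}, a ≤ b → P a ≤ P b
  mul : ∀ {a b : ℕ} {x y : R}, x ∈ P a → y ∈ P b → x * y ∈ P (a + b)
  one : (1 : R) ∈ P 0
  abs : ∀ {a b : ℕ} {x y : R}, x ∈ K → x ∈ P a → y ∈ P b → a + b ≤ d → x * y ∈ K
  fro : ∀ x : R, x ^ p = x

variable {p : ℕ} {R : Type} [CommRing R] [Algebra (ZMod p) R]

theorem TB.pw (T : TB p R) {e : ℕ} {x : R} (hx : x ∈ T.P e) : ∀ j : ℕ, x ^ j ∈ T.P (e * j) := by
  intro j
  induction j with
  | zero => rw [pow_zero, mul_zero]; exact T.one
  | succ j ih => rw [pow_succ, Nat.mul_succ]; exact T.mul ih hx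

/-- the functions `f` with `f a h ∈ K` for all `h ∈ H` -/
def Nn (T : TB p R) (a : R) (H : Set R) : Submodule (ZMod p) R where
  carrier := {f | ∀ h ∈ H, f * (a * h) ∈ T.K}
  add_mem' := by
    intro f g hf hg h hh
    rw [add_mul]
    exact T.K.add_mem (hf h hh) (hg h hh)
  zero_mem' := by
    intro h _
    rw [zero_mul]
    exact T.K.zero_mem
  smul_mem' := by
    intro a f hf h hh
    rw [smul_mul_assoc]
    exact T.K.smul_mem a (hf h hh)

theorem mem_Nn {T : TB p R} {a : R} {H : Set R} {f : R} : f ∈ Nn T a H ↔ ∀ h ∈ H, f * (a * h) ∈ T.K := Iff.rfl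

/-- the functions `f` with `f g h ∈ K` for all `g = g i`, `h ∈ H` -/
def NA (T : TB p R) {m : ℕ} (g : Fin m → R) (H : Set R) : Submodule (ZMod p) R where
  carrier := {f | ∀ i, ∀ h ∈ H, f * (g i * h) ∈ T.K}
  add_mem' := by
    intro f g hf hg u h hh
    rw [add_mul]
    exact T.K.add_mem (hf u h hh) (hg u h hh)
  zero_mem' := by
    intro i h _
    rw [zero_mul]
    exact T.K.zero_mem
  smul_mem' := by
    intro a f hf i h hh
    rw [smul_mul_assoc]
    exact T.K.smul_mem a (hf i h hh)

theorem mem_NA {T : TB p R} {m : ℕ} {g : Fin m → R} {H : Set R} {f : R} :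
    f ∈ NA T g H ↔ ∀ i, ∀ h ∈ H, f * (g i * h) ∈ T.K := Iff.rfl

/-- the functions `f` of degree at most `D` with `f a h ∈ K` for all `h ∈ H` -/
def An (T : TB p R) (D : ℕ) (a : R) (H : Set R) : Submodule (ZMod p) R := T.P D ⊓ Nn T a H

section dims
variable [Fact p.Prime] [FiniteDimensional (ZMod p) R]

/-- subspaces independent modulo `V'` -/
theorem many {ι : Type} [Fintype ι] (V V' : Submodule (ZMod p) R) (X : ι → Submodule (ZMod p) R) (hV' : V' ≤ V)
    (hX : ∀ i, X i ≤ V) (h : ∀ x : ι → R, (∀ i, x i ∈ X i) → ∑ i, x i ∈ V' → ∀ i, x i ∈ V') :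
    ∑ i, Module.finrank (ZMod p) (X i) + Module.finrank (ZMod p) V' ≤
      Module.finrank (ZMod p) V + ∑ i, Module.finrank (ZMod p) ↥(X i ⊓ V') := by
  let s : ((i : ι) → X i) →ₗ[ZMod p] R := ∑ i, (X i).subtype.comp (LinearMap.proj i)
  have hs : ∀ x, s x = ∑ i, (x i : R) := by
    intro x
    simp [s]
  let φ : ((i : ι) → X i) × V' →ₗ[ZMod p] R := LinearMap.coprod s V'.subtype
  have hφ : ∀ z, φ z = ∑ i, (z.1 i : R) + (z.2 : R) := by
    intro z
    change s z.1 + (z.2 : R) = _
    rw [hs]
  have hrange : LinearMap.range φ ≤ V := by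
    rintro _ ⟨z, rfl⟩
    rw [hφ]
    exact V.add_mem (V.sum_mem fun i _ => hX i (z.1 i).2) (hV' z.2.2)
  have hk : ∀ z : LinearMap.ker φ, ∑ i, (z.1.1 i : R) + (z.1.2 : R) = 0 := by
    intro z
    have := z.2
    rw [LinearMap.mem_ker, hφ] at this
    exact this
  have hkV : ∀ z : LinearMap.ker φ, ∀ i, (z.1.1 i : R) ∈ V' := by
    intro z
    refine h (fun i => (z.1.1 i : R)) (fun i => (z.1.1 i).2) ?_
    have h1 := eq_neg_of_add_eq_zero_left (hk z)
    rw [h1]
    exact V'.neg_mem z.1.2.2
  have hker : Module.finrank (ZMod p) (LinearMap.ker φ) ≤ Module.finrank (ZMod p) ((i : ι) → ↥(X i ⊓ V')) := by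
    let ψ : LinearMap.ker φ →ₗ[ZMod p] ((i : ι) → ↥(X i ⊓ V')) :=
      LinearMap.pi fun i => LinearMap.codRestrict _
        ((X i).subtype.comp ((LinearMap.proj i).comp ((LinearMap.fst (ZMod p) _ _).comp (LinearMap.ker φ).subtype)))
        (fun z => Submodule.mem_inf.2 ⟨(z.1.1 i).2, hkV z i⟩)
    refine LinearMap.finrank_le_finrank_of_injective (f := ψ) ?_
    intro z z' hzz
    have h1 : ∀ i, (z.1.1 i : R) = (z'.1.1 i : R) := fun i =>
      congrArg (fun u : ((i : ι) → ↥(X i ⊓ V')) => (u i : R)) hzz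
    have h2 : (z.1.2 : R) = (z'.1.2 : R) := by
      have e1 := hk z
      have e2 := hk z'
      rw [Finset.sum_congr rfl fun i _ => h1 i] at e1
      exact add_left_cancel (e1.trans e2.symm)
    exact Subtype.ext (Prod.ext (funext fun i => Subtype.ext (h1 i)) (Subtype.ext h2))
  have h3 := LinearMap.finrank_range_add_finrank_ker φ
  rw [Module.finrank_prod, Module.finrank_pi_fintype] at h3
  rw [Module.finrank_pi_fintype] at hker
  have h4 := Submodule.finrank_mono hrange
  omega

omit [FiniteDimensional (ZMod p) R] in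
/-- if `P z = - t z` modulo `K` then `(P + s)^j z = (s - t)^j z` modulo `K` -/
theorem eig (T : TB p R) {b e : ℕ} {z P : R} {t s : ZMod p} (hz : z ∈ T.P b) (hP : P ∈ T.P e)
    (h : P * z + t • z ∈ T.K) : ∀ j : ℕ, b + e * j + e ≤ T.d + e → (j = 0 ∨ b + e * j ≤ T.d) →
      (P + algebraMap (ZMod p) R s) ^ j * z - (s - t) ^ j • z ∈ T.K := by
  intro j
  induction j with
  | zero =>
    intro _ _
    rw [pow_zero, one_mul, pow_zero, one_smul, sub_self]
    exact T.K.zero_mem
  | succ j ih =>
    intro h1 h2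
    have hj : b + e * (j + 1) ≤ T.d := by omega
    rw [Nat.mul_succ] at hj
    have ih' := ih (by omega) (Or.inr (by omega))
    have hPs : P + algebraMap (ZMod p) R s ∈ T.P e := by
      refine (T.P e).add_mem hP (T.mono (Nat.zero_le e) ?_)
      rw [Algebra.algebraMap_eq_smul_one]
      exact (T.P 0).smul_mem s T.one
    have hzj : (P + algebraMap (ZMod p) R s) ^ j * z - (s - t) ^ j • z ∈ T.P (b + e * j) := by
      refine (T.P _).sub_mem ?_ ((T.P _).smul_mem _ (T.mono (Nat.le_add_right _ _) hz))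
      have := T.mul (T.pw hPs j) hz
      rwa [add_comm] at this
    have k1 := T.abs ih' hzj hPs (by omega)
    have k2 : (s - t) ^ j • (P * z + t • z) ∈ T.K := T.K.smul_mem _ h
    have : (P + algebraMap (ZMod p) R s) ^ (j + 1) * z - (s - t) ^ (j + 1) • z =
        ((P + algebraMap (ZMod p) R s) ^ j * z - (s - t) ^ j • z) * (P + algebraMap (ZMod p) R s) +
          (s - t) ^ j • (P * z + t • z) := by
      simp only [Algebra.smul_def, map_pow, map_sub]
      ring
    rw [this]
    exact T.K.add_mem k1 k2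

/-- averaging over the linear combinations of `g` -/
theorem avg (T : TB p R) {D cc e : ℕ} (H : Set R) (hH : ∀ h ∈ H, h ∈ T.P cc) (hd : D + cc + e * (p + 1) ≤ T.d) :
    ∀ (m : ℕ) (g : Fin m → R), (∀ i, g i ∈ T.P e) → (∀ i, g i * g i = g i) →
      ∀ V : Submodule (ZMod p) R, V ≤ T.P D →
      p * ∑ c : Fin m → ZMod p, Module.finrank (ZMod p) ↥(V ⊓ Nn T (∑ i, c i • g i) H) ≤
        p ^ m * (Module.finrank (ZMod p) V + (p - 1) * Module.finrank (ZMod p) ↥(V ⊓ NA T g H)) := by
  have hp2 : 2 ≤ p := (Fact.out : p.Prime).two_le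
  intro m
  induction m with
  | zero =>
    intro g _ _ V _
    have h1 : ∀ c : Fin 0 → ZMod p, V ⊓ Nn T (∑ i, c i • g i) H = V := by
      intro c
      rw [inf_eq_left]
      intro f _ h _
      rw [Finset.univ_eq_empty, Finset.sum_empty, zero_mul, mul_zero]
      exact T.K.zero_mem
    have h2 : V ⊓ NA T g H = V := by
      rw [inf_eq_left]
      intro f _ i
      exact i.elim0
    rw [h2, Finset.sum_congr rfl fun c _ => by rw [h1 c]]
    rw [Finset.sum_const, Finset.card_univ, Fintype.card_fun, Fintype.card_fin, pow_zero, pow_zero, one_smul, one_mul]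
    obtain ⟨q, rfl⟩ : ∃ q, p = q + 1 := ⟨p - 1, by omega⟩
    rw [Nat.add_sub_cancel, add_mul, one_mul, add_comm]
  | succ m ih =>
    intro g hg hgi V hV
    set V' : Submodule (ZMod p) R := V ⊓ Nn T (g 0) H with hV'def
    have hV'V : V' ≤ V := inf_le_left
    have hih := ih (fun i => g i.succ) (fun i => hg _) (fun i => hgi _) V' (hV'V.trans hV)
    have hNA : V' ⊓ NA T (fun i : Fin m => g i.succ) H = V ⊓ NA T g H := by
      ext f
      simp only [hV'def, Submodule.mem_inf, mem_Nn, mem_NA]
      constructor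
      · rintro ⟨⟨h1, h2⟩, h3⟩
        refine ⟨h1, fun i => ?_⟩
        induction i using Fin.cases with
        | zero => exact h2
        | succ i => exact h3 i
      · rintro ⟨h1, h2⟩
        exact ⟨⟨h1, h2 0⟩, fun i => h2 i.succ⟩
    rw [hNA] at hih
    have key : ∀ c : Fin m → ZMod p,
        ∑ t : ZMod p, Module.finrank (ZMod p) ↥(V ⊓ Nn T (t • g 0 + ∑ i, c i • g i.succ) H) +
          Module.finrank (ZMod p) V' ≤
          Module.finrank (ZMod p) V + p * Module.finrank (ZMod p) ↥(V' ⊓ Nn T (∑ i, c i • g i.succ) H) := by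
      intro c
      set P : R := ∑ i, c i • g i.succ with hP
      have hPP : P ∈ T.P e := Submodule.sum_mem _ fun i _ => (T.P e).smul_mem _ (hg _)
      have hXV : ∀ t : ZMod p, (V ⊓ Nn T (t • g 0 + P) H) ⊓ V' = V' ⊓ Nn T P H := by
        intro t
        ext f
        simp only [hV'def, Submodule.mem_inf, mem_Nn]
        constructor
        · rintro ⟨⟨h1, h2⟩, h3, h4⟩
          refine ⟨⟨h1, h4⟩, fun h hh => ?_⟩
          have : f * (P * h) = f * ((t • g 0 + P) * h) - t • (f * (g 0 * h)) := by
            rw [Algebra.smul_def, Algebra.smul_def]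
            ring
          rw [this]
          exact T.K.sub_mem (h2 h hh) (T.K.smul_mem _ (h4 h hh))
        · rintro ⟨⟨h1, h2⟩, h3⟩
          refine ⟨⟨h1, fun h hh => ?_⟩, h1, h2⟩
          have : f * ((t • g 0 + P) * h) = f * (P * h) + t • (f * (g 0 * h)) := by
            rw [Algebra.smul_def, Algebra.smul_def]
            ring
          rw [this]
          exact T.K.add_mem (h3 h hh) (T.K.smul_mem _ (h2 h hh))
      have hmany := many V V' (fun t : ZMod p => V ⊓ Nn T (t • g 0 + P) H) hV'V (fun t => inf_le_left) (by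
        intro x hx hsum t0
        have hxV : ∀ t, x t ∈ V := fun t => (Submodule.mem_inf.1 (hx t)).1
        have hxN : ∀ t, x t ∈ Nn T (t • g 0 + P) H := fun t => (Submodule.mem_inf.1 (hx t)).2
        refine Submodule.mem_inf.2 ⟨hxV t0, fun h hh => ?_⟩
        have hhP := hH h hh
        set z : ZMod p → R := fun t => x t * (g 0 * h) with hz
        have hzP : ∀ t, z t ∈ T.P (D + (e + cc)) := fun t => T.mul (hV (hxV t)) (T.mul (hg 0) hhP)
        have hep : e * (p + 1) = e * (p - 1) + e + e := by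
          obtain ⟨q, rfl⟩ : ∃ q, p = q + 1 := ⟨p - 1, by omega⟩
          rw [Nat.add_sub_cancel]
          ring
        have hzK : ∀ t, P * z t + t • z t ∈ T.K := by
          intro t
          have k1 := T.abs (hxN t h hh) (T.mul (hV (hxV t)) (T.mul ((T.P e).add_mem ((T.P e).smul_mem t (hg 0)) hPP) hhP))
            (hg 0) (by omega)
          have k2 : x t * ((t • g 0 + P) * h) * g 0 = P * z t + t • z t := by
            have : x t * ((t • g 0 + P) * h) * g 0 = P * (x t * (g 0 * h)) + t • (x t * ((g 0 * g 0) * h)) := by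
              rw [Algebra.smul_def, Algebra.smul_def]
              ring
            rw [this, hgi]
          rw [← k2]
          exact k1
        have hsz : ∑ t, z t ∈ T.K := by
          have k1 := (Submodule.mem_inf.1 hsum).2 h hh
          rwa [Finset.sum_mul] at k1
        have hPs : P + algebraMap (ZMod p) R t0 ∈ T.P e := by
          refine (T.P e).add_mem hPP (T.mono (Nat.zero_le e) ?_)
          rw [Algebra.algebraMap_eq_smul_one]
          exact (T.P 0).smul_mem t0 T.one
        have hszP : ∑ t, z t ∈ T.P (D + (e + cc)) := Submodule.sum_mem _ fun t _ => hzP t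
        have k3 : (P + algebraMap (ZMod p) R t0) ^ (p - 1) * ∑ t, z t ∈ T.K := by
          rw [mul_comm]
          exact T.abs hsz hszP (T.pw hPs (p - 1)) (by omega)
        have k4 : ∑ t, ((P + algebraMap (ZMod p) R t0) ^ (p - 1) * z t - (t0 - t) ^ (p - 1) • z t) ∈ T.K :=
          Submodule.sum_mem _ fun t _ => eig T (hzP t) hPP (hzK t) (p - 1) (by omega) (Or.inr (by omega))
        have k5 : ∑ t, (t0 - t) ^ (p - 1) • z t = ∑ t, z t - z t0 := by
          rw [eq_sub_iff_add_eq, ← Finset.sum_erase_add _ _ (Finset.mem_univ t0), sub_self,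
            zero_pow (by omega : p - 1 ≠ 0), zero_smul, add_zero]
          rw [← Finset.sum_erase_add _ _ (Finset.mem_univ t0)]
          congr 1
          refine Finset.sum_congr rfl fun t ht => ?_
          rw [ZMod.pow_card_sub_one_eq_one (sub_ne_zero.2 (Finset.ne_of_mem_erase ht).symm), one_smul]
        rw [Finset.sum_sub_distrib, ← Finset.mul_sum, k5] at k4
        have k6 : z t0 = ((P + algebraMap (ZMod p) R t0) ^ (p - 1) * ∑ t, z t - (∑ t, z t - z t0)) -
            (P + algebraMap (ZMod p) R t0) ^ (p - 1) * ∑ t, z t + ∑ t, z t := by ring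
        change z t0 ∈ T.K
        rw [k6]
        exact T.K.add_mem (T.K.sub_mem k4 k3) hsz)
      have hs : ∑ t : ZMod p, Module.finrank (ZMod p) ↥((V ⊓ Nn T (t • g 0 + P) H) ⊓ V') =
          p * Module.finrank (ZMod p) ↥(V' ⊓ Nn T P H) := by
        rw [show (p * Module.finrank (ZMod p) ↥(V' ⊓ Nn T P H)) =
          ∑ t : ZMod p, Module.finrank (ZMod p) ↥(V' ⊓ Nn T P H) by
            rw [Finset.sum_const, Finset.card_univ, ZMod.card, smul_eq_mul]]
        exact Finset.sum_congr rfl fun t _ => congrArg (fun X : Submodule (ZMod p) R => Module.finrank (ZMod p) X) (hXV t)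
      rw [hs] at hmany
      exact hmany
    have hsplit : ∑ c' : Fin (m + 1) → ZMod p, Module.finrank (ZMod p) ↥(V ⊓ Nn T (∑ i, c' i • g i) H) =
        ∑ c : Fin m → ZMod p, ∑ t : ZMod p,
          Module.finrank (ZMod p) ↥(V ⊓ Nn T (t • g 0 + ∑ i, c i • g i.succ) H) := by
      rw [← (Fin.consEquiv (fun _ => ZMod p)).sum_comp, Fintype.sum_prod_type_right]
      refine Finset.sum_congr rfl fun c _ => Finset.sum_congr rfl fun t _ => ?_
      refine congrArg (fun X : R => Module.finrank (ZMod p) ↥(V ⊓ Nn T X H)) ?_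
      rw [Fin.sum_univ_succ]
      simp [Fin.consEquiv]
    have hsum2 := Finset.sum_le_sum fun c (_ : c ∈ (Finset.univ : Finset (Fin m → ZMod p))) => key c
    have hL : ∑ c : Fin m → ZMod p, (∑ t : ZMod p,
          Module.finrank (ZMod p) ↥(V ⊓ Nn T (t • g 0 + ∑ i, c i • g i.succ) H) + Module.finrank (ZMod p) V') =
        ∑ c' : Fin (m + 1) → ZMod p, Module.finrank (ZMod p) ↥(V ⊓ Nn T (∑ i, c' i • g i) H) +
          p ^ m * Module.finrank (ZMod p) V' := by
      rw [hsplit, Finset.sum_add_distrib, Finset.sum_const, Finset.card_univ, Fintype.card_fun, Fintype.card_fin,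
        ZMod.card, smul_eq_mul]
    have hR : ∑ c : Fin m → ZMod p, (Module.finrank (ZMod p) V +
          p * Module.finrank (ZMod p) ↥(V' ⊓ Nn T (∑ i, c i • g i.succ) H)) =
        p ^ m * Module.finrank (ZMod p) V +
          p * ∑ c : Fin m → ZMod p, Module.finrank (ZMod p) ↥(V' ⊓ Nn T (∑ i, c i • g i.succ) H) := by
      rw [Finset.sum_add_distrib, Finset.sum_const, Finset.card_univ, Fintype.card_fun, Fintype.card_fin,
        ZMod.card, smul_eq_mul, Finset.mul_sum]
    rw [hL, hR] at hsum2
    have hle : Module.finrank (ZMod p) V' ≤ Module.finrank (ZMod p) V := Submodule.finrank_mono hV'V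
    rw [pow_succ]
    obtain ⟨q, hq⟩ : ∃ q, p = q + 1 := ⟨p - 1, by omega⟩
    have hq1 : p - 1 = q := by omega
    rw [hq1] at hih ⊢
    generalize Module.finrank (ZMod p) V = v at *
    generalize Module.finrank (ZMod p) V' = v' at *
    generalize Module.finrank (ZMod p) ↥(V ⊓ NA T g H) = na at *
    generalize ∑ c' : Fin (m + 1) → ZMod p, Module.finrank (ZMod p) ↥(V ⊓ Nn T (∑ i, c' i • g i) H) = S at *
    generalize ∑ c : Fin m → ZMod p, Module.finrank (ZMod p) ↥(V' ⊓ Nn T (∑ i, c i • g i.succ) H) = S' at *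
    generalize p ^ m = M at *
    have e1 : S ≤ M * v - M * v' + M * (v' + q * na) := by
      have : S + M * v' ≤ M * v + M * (v' + q * na) := by omega
      have h7 : M * v' ≤ M * v := Nat.mul_le_mul_left M hle
      omega
    have h7 : M * v' ≤ M * v := Nat.mul_le_mul_left M hle
    have e2 : S ≤ M * (v + q * na) := by
      rw [mul_add] at e1 ⊢
      omega
    calc p * S ≤ p * (M * (v + q * na)) := Nat.mul_le_mul_left p e2
      _ = M * p * (v + q * na) := by ring

/-- splitting off the zeros of `u` -/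
theorem split (T : TB p R) {D c e : ℕ} (H : Set R) (a u : R) (hH : ∀ h ∈ H, a * h ∈ T.P c) (hu : u ∈ T.P e) (he : e ≤ D)
    (hd : D + c + e * (p - 1) ≤ T.d) :
    Module.finrank (ZMod p) (T.P (D - e)) + Module.finrank (ZMod p) (An T D a H) ≤
      Module.finrank (ZMod p) (An T D ((1 - u ^ (p - 1)) * a) H) +
        Module.finrank (ZMod p) (An T (D - e) (u * a) H) := by
  have hp2 : 2 ≤ p := (Fact.out : p.Prime).two_le
  let φ : (T.P (D - e)) × (An T D a H) →ₗ[ZMod p] R :=
    LinearMap.coprod ((LinearMap.mulLeft (ZMod p) u).comp (T.P (D - e)).subtype) (An T D a H).subtype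
  have hφ : ∀ z, φ z = u * (z.1 : R) + (z.2 : R) := fun z => rfl
  have huu : u * u ^ (p - 1) = u := by
    rw [← pow_succ', Nat.sub_add_cancel (by omega : 1 ≤ p), T.fro]
  have hrange : LinearMap.range φ ≤ An T D ((1 - u ^ (p - 1)) * a) H := by
    rintro _ ⟨z, rfl⟩
    rw [hφ]
    have hz2 := z.2.2
    refine Submodule.add_mem _ ?_ ?_
    · refine Submodule.mem_inf.2 ⟨?_, fun h hh => ?_⟩
      · have := T.mul hu z.1.2
        rwa [Nat.add_sub_cancel' he] at this
      · have e1 : u * (z.1 : R) * ((1 - u ^ (p - 1)) * a * h) = (u - u * u ^ (p - 1)) * ((z.1 : R) * a * h) := by ring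
        rw [e1, huu, sub_self, zero_mul]
        exact T.K.zero_mem
    · refine Submodule.mem_inf.2 ⟨(Submodule.mem_inf.1 hz2).1, fun h hh => ?_⟩
      have h1 := (Submodule.mem_inf.1 hz2).2 h hh
      have e1 : (z.2 : R) * ((1 - u ^ (p - 1)) * a * h) = (z.2 : R) * (a * h) * (1 - u ^ (p - 1)) := by ring
      rw [e1]
      exact T.abs h1 (T.mul (Submodule.mem_inf.1 hz2).1 (hH h hh))
        ((T.P _).sub_mem (T.mono (Nat.zero_le _) T.one) (T.pw hu (p - 1))) (by omega)
  have hker : Module.finrank (ZMod p) (LinearMap.ker φ) ≤ Module.finrank (ZMod p) (An T (D - e) (u * a) H) := by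
    let ψ : LinearMap.ker φ →ₗ[ZMod p] An T (D - e) (u * a) H :=
      LinearMap.codRestrict _ ((T.P (D - e)).subtype.comp ((LinearMap.fst (ZMod p) _ _).comp (LinearMap.ker φ).subtype)) (by
        intro z
        refine Submodule.mem_inf.2 ⟨z.1.1.2, fun h hh => ?_⟩
        have hz : u * (z.1.1 : R) + (z.1.2 : R) = 0 := by
          have := z.2
          rw [LinearMap.mem_ker, hφ] at this
          exact this
        have hz' : u * (z.1.1 : R) = - (z.1.2 : R) := eq_neg_of_add_eq_zero_left hz
        have h1 := (Submodule.mem_inf.1 z.1.2.2).2 h hh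
        have e1 : (z.1.1 : R) * (u * a * h) = (u * (z.1.1 : R)) * (a * h) := by ring
        change (z.1.1 : R) * (u * a * h) ∈ T.K
        rw [e1, hz', neg_mul]
        exact T.K.neg_mem h1)
    refine LinearMap.finrank_le_finrank_of_injective (f := ψ) ?_
    intro z z' hzz
    have h1 : (z.1.1 : R) = (z'.1.1 : R) := congrArg (fun v : An T (D - e) (u * a) H => (v : R)) hzz
    have hz : u * (z.1.1 : R) + (z.1.2 : R) = 0 := by
      have := z.2
      rw [LinearMap.mem_ker, hφ] at this
      exact this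
    have hz' : u * (z'.1.1 : R) + (z'.1.2 : R) = 0 := by
      have := z'.2
      rw [LinearMap.mem_ker, hφ] at this
      exact this
    have h2 : (z.1.2 : R) = (z'.1.2 : R) := by
      rw [h1] at hz
      exact add_left_cancel (hz.trans hz'.symm)
    exact Subtype.ext (Prod.ext (Subtype.ext h1) (Subtype.ext h2))
  have h := LinearMap.finrank_range_add_finrank_ker φ
  rw [Module.finrank_prod] at h
  have h2 := Submodule.finrank_mono hrange
  omega

end dims

end H85SD
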