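import Mathlib

/-!
helper85: definitions for the size-degree theorem for resolution over polynomials (project MP_28250c_SD).
-/

set_option autoImplicit false
open scoped Classical

namespace SizeDegree

/-- The 0/1 assignments of `n` variables. -/
abbrev Pt (n : ℕ) := Fin n → Bool

/-- The function `g` is a polynomial of degree at most `d` over the field with `p` elements. -/
def DegLE {p n : ℕ} (d : ℕ) (g : Pt n → ZMod p) : Prop :=
  ∃ a : Finset (Fin n) → ZMod p, ∀ x, g x = ∑ T ∈ Finset.univ.filter (fun T : Finset (Fin n) => T.card ≤ d),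
    a T * ∏ i ∈ T, (if x i then 1 else 0)

/-- A clause: a finite set of literals; a literal is a variable and the value which makes the literal true. -/
abbrev Clause (n : ℕ) := Finset (Fin n × Bool)

/-- The clause is true at the assignment `x`. -/
def Clause.Holds {n : ℕ} (C : Clause n) (x : Pt n) : Prop := ∃ l ∈ C, x l.1 = l.2

/-- The functions derived from the CNF `Φ` by the polynomial calculus over the field with `p` elements in degree `d`
(the functions are multilinear polynomials on the 0/1 assignments): the function which is 1 where a clause is false and 0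
where it is true; linear combinations; and the product of a variable and a derived function of degree less than `d`. -/
inductive Derives {p n m : ℕ} (Φ : Fin m → Clause n) (d : ℕ) : (Pt n → ZMod p) → Prop
  | zero : Derives Φ d 0
  | clause (j : Fin m) : Derives Φ d (fun x => if (Φ j).Holds x then 0 else 1)
  | add {g h : Pt n → ZMod p} : Derives Φ d g → Derives Φ d h → Derives Φ d (g + h)
  | smul (a : ZMod p) {g : Pt n → ZMod p} : Derives Φ d g → Derives Φ d (a • g)
  | mul (i : Fin n) {g : Pt n → ZMod p} {c : ℕ} : Derives Φ d g → DegLE c g → c < d →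
      Derives Φ d (fun x => (if x i then 1 else 0) * g x)

/-- A condition of degree at most `e`: a 0/1-valued function of degree at most `e`; it is true where the value is 1. -/
def Cond {p n : ℕ} (e : ℕ) (g : Pt n → ZMod p) : Prop := DegLE e g ∧ ∀ x, g x = 0 ∨ g x = 1

/-- A proof line: the disjunction of the conditions in `E`, of degree at most `e` (any number of them), and of one
condition `h` of degree at most `t`. -/
structure Line (p n e t : ℕ) where
  E : Set (Pt n → ZMod p)
  hE : ∀ g ∈ E, Cond e g
  h : Pt n → ZMod p
  hh : Cond t h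

/-- The line is true at the assignment `x`. -/
def Line.Holds {p n e t : ℕ} (l : Line p n e t) (x : Pt n) : Prop := (∃ g ∈ l.E, g x = 1) ∨ l.h x = 1

/-- Local inference of the line `C` from the lines `l j`, `j ∈ J`, and the clauses `Φ j`, `j ∈ Jc`: there are at most `s`
main conditions `A j` for every premise and `B` for the conclusion such that the conditions of the premise `l j` are linear
combinations of conditions of `C` (side conditions) and of `A j`, the conditions in `B` are linear combinations of
conditions of `C`, and the inference from the main conditions is sound. -/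
def Infers {p n e t m : ℕ} (s : ℕ) (Φ : Fin m → Clause n) (Jc : Finset (Fin m)) (l : ℕ → Line p n e t)
    (J : Finset ℕ) (C : Line p n e t) : Prop :=
  ∃ (A : ℕ → Finset (Pt n → ZMod p)) (B : Finset (Pt n → ZMod p)),
    (∀ j ∈ J, (A j).card ≤ s ∧ (∀ g ∈ A j, Cond e g) ∧
      (l j).E ⊆ Submodule.span (ZMod p) (C.E ∪ (A j : Set (Pt n → ZMod p)))) ∧
    B.card ≤ s ∧ (∀ g ∈ B, Cond e g ∧ g ∈ Submodule.span (ZMod p) C.E) ∧
    ∀ x, (∀ j ∈ Jc, (Φ j).Holds x) → (∀ j ∈ J, (l j).h x = 1 ∨ ∃ g ∈ A j, g x = 1) → C.h x = 1 ∨ ∃ g ∈ B, g x = 1

/-- The CNF `Φ` has a refutation with `N` lines: every line is inferred from at most `f` earlier lines and at most `f`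
clauses with at most `s` main conditions per line; the last line is false everywhere. -/
def Refutes {n m : ℕ} (p e t f s : ℕ) (Φ : Fin m → Clause n) (N : ℕ) : Prop :=
  ∃ l : ℕ → Line p n e t, 1 ≤ N ∧ (∀ x, ¬ (l (N - 1)).Holds x) ∧
    ∀ i < N, ∃ (J : Finset ℕ) (Jc : Finset (Fin m)), J.card ≤ f ∧ Jc.card ≤ f ∧ (∀ j ∈ J, j < i) ∧
      Infers s Φ Jc l J (l i)

/-- A line of resolution over parities: a disjunction of equations `∑_(i ∈ a) x_i = b` over the field with 2 elements. -/
abbrev XorLine (n : ℕ) := Set (Finset (Fin n) × ZMod 2)

/-- The line is true at `x`. -/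
def XorLine.Holds {n : ℕ} (L : XorLine n) (x : Pt n) : Prop := ∃ g ∈ L, ∑ i ∈ g.1, (if x i then (1 : ZMod 2) else 0) = g.2

/-- The CNF has a refutation in resolution over parities with `N` lines: every line is implied by a clause or by two
earlier lines; the last line is false everywhere. -/
def XorRefutes {n m : ℕ} (Φ : Fin m → Clause n) (N : ℕ) : Prop :=
  ∃ l : ℕ → XorLine n, 1 ≤ N ∧ (∀ x, ¬ (l (N - 1)).Holds x) ∧
    ∀ i < N, (∃ j, ∀ x, (Φ j).Holds x → (l i).Holds x) ∨
      ∃ j < i, ∃ k < i, ∀ x, (l j).Holds x → (l k).Holds x → (l i).Holds x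

end SizeDegree
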