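import Pool.Agent.H85.SD.Thm

/-!
helper85: the choice of the multiplier `f` for a finite family of gates.
-/

set_option autoImplicit false
open scoped Classical

namespace H85SD

variable {p : ℕ} {R : Type} [CommRing R] [Algebra (ZMod p) R]

theorem enum {R : Type} [Finite R] (E : Set R) : ∃ (m : ℕ) (g : Fin m → R), Set.range g = E := by
  obtain ⟨m, ⟨e⟩⟩ := Finite.exists_equiv_fin E
  refine ⟨m, fun i => (e.symm i : R), ?_⟩
  ext x
  constructor
  · rintro ⟨i, rfl⟩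
    exact (e.symm i).2
  · intro hx
    exact ⟨e ⟨x, hx⟩, congrArg Subtype.val (e.symm_apply_apply ⟨x, hx⟩)⟩

/-- the choice of the multiplier `f` -/
theorem exists_f [Fact p.Prime] [FiniteDimensional (ZMod p) R] [Finite R] (T : TB p R) {ι : Type} [Fintype ι]
    (L : ι → Set R) {e D0 w : ℕ} (hL : ∀ i, ∀ g ∈ L i, g ∈ T.P e) (hLi : ∀ i, ∀ g ∈ L i, g * g = g) (h1 : (1 : R) ∉ T.K)
    (hd : D0 + e + (e * (p - 1) * w + e) + e * (p + 1) ≤ T.d) {q : ℝ} (hq0 : 0 < q) (hq1 : q ≤ 1)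
    (hN : (Fintype.card ι : ℝ) * (tau T q D0 e + (1 - (1 - 1 / (p : ℝ)) * q ^ e) ^ w) < 1) :
    ∃ (D : ℕ) (f : R) (a : ι → R), D ≤ D0 + e ∧ f ∈ T.P D ∧ f ∉ T.K ∧ ∀ i, a i ∈ T.P (e * (p - 1) * w) ∧
      a i * a i = a i ∧ (∃ (mm : ℕ) (c g : Fin mm → R), (∀ r, c r ∈ T.P (e * (p - 1) * w)) ∧ (∀ r, g r ∈ L i) ∧
        1 - a i = ∑ r, c r * g r) ∧ ∀ g ∈ L i, f * (a i * g) ∈ T.K := by
  have hap : ∀ i, ∃ a ∈ T.P (e * (p - 1) * w), (a * a = a ∧ ∃ (mm : ℕ) (c g : Fin mm → R),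
      (∀ r, c r ∈ T.P (e * (p - 1) * w)) ∧ (∀ r, g r ∈ L i) ∧ 1 - a = ∑ r, c r * g r) ∧
        UU T q (D0 + e) a (L i) ≤ tau T q D0 e + (1 - (1 - 1 / (p : ℝ)) * q ^ e) ^ w * U0 T q (D0 + e) := by
    intro i
    obtain ⟨m, g, hg⟩ := enum (L i)
    have hgm : ∀ r, g r ∈ L i := fun r => hg ▸ Set.mem_range_self r
    obtain ⟨a, ha, ⟨haa, c, hc, hca⟩, hU⟩ := approx T (D0 := D0) g (fun r => hL i _ (hgm r))
      (fun r => hLi i _ (hgm r)) hq0.le hq1 w hd
    refine ⟨a, ha, ⟨haa, m, c, g, hc, hgm, hca⟩, ?_⟩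
    rw [← hg]
    exact hU
  choose a ha haa hU using hap
  -- U0 ≥ 1
  have hhD : ∀ D, 0 ≤ hD T D := by
    intro D
    have h : Module.finrank (ZMod p) ↥(T.P D ⊓ T.K) ≤ Module.finrank (ZMod p) (T.P D) := Submodule.finrank_mono inf_le_left
    have h' : (Module.finrank (ZMod p) ↥(T.P D ⊓ T.K) : ℝ) ≤ Module.finrank (ZMod p) (T.P D) := by exact_mod_cast h
    rw [hD]
    linarith
  have hh0 : 1 ≤ hD T 0 := by
    have hlt : T.P 0 ⊓ T.K < T.P 0 := by
      refine lt_of_le_of_ne inf_le_left ?_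
      intro h
      apply h1
      have : (1 : R) ∈ T.P 0 ⊓ T.K := by rw [h]; exact T.one
      exact (Submodule.mem_inf.1 this).2
    have h2 : Module.finrank (ZMod p) ↥(T.P 0 ⊓ T.K) + 1 ≤ Module.finrank (ZMod p) (T.P 0) :=
      Submodule.finrank_lt_finrank_of_lt hlt
    have h3 : (Module.finrank (ZMod p) ↥(T.P 0 ⊓ T.K) : ℝ) + 1 ≤ Module.finrank (ZMod p) (T.P 0) := by exact_mod_cast h2
    rw [hD]
    linarith
  have hU0 : 1 ≤ U0 T q (D0 + e) := by
    rw [U0, Finset.sum_range_succ']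
    have h2 : 0 ≤ ∑ D ∈ Finset.range (D0 + e), q ^ (D + 1) * hD T (D + 1) :=
      Finset.sum_nonneg fun D _ => mul_nonneg (pow_nonneg hq0.le _) (hhD _)
    rw [pow_zero, one_mul]
    linarith
  have htau : 0 ≤ tau T q D0 e := Finset.sum_nonneg fun D _ => mul_nonneg (pow_nonneg hq0.le D) (Nat.cast_nonneg _)
  -- some degree works
  have hdeg : ∃ D ∈ Finset.range (D0 + e + 1), ∑ i, rr T D (a i) (L i) < hD T D := by
    by_contra hcon
    push Not at hcon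
    have h2 : U0 T q (D0 + e) ≤ ∑ i, UU T q (D0 + e) (a i) (L i) := by
      simp only [U0, UU]
      rw [Finset.sum_comm]
      refine Finset.sum_le_sum fun D hDr => ?_
      rw [← Finset.mul_sum]
      exact mul_le_mul_of_nonneg_left (hcon D hDr) (pow_nonneg hq0.le D)
    have h3 : ∑ i, UU T q (D0 + e) (a i) (L i) ≤
        (Fintype.card ι : ℝ) * (tau T q D0 e + (1 - (1 - 1 / (p : ℝ)) * q ^ e) ^ w * U0 T q (D0 + e)) := by
      refine (Finset.sum_le_sum fun i _ => hU i).trans ?_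
      rw [Finset.sum_const, Finset.card_univ, nsmul_eq_mul]
    have h4 : (Fintype.card ι : ℝ) * (tau T q D0 e + (1 - (1 - 1 / (p : ℝ)) * q ^ e) ^ w * U0 T q (D0 + e)) ≤
        (Fintype.card ι : ℝ) * (tau T q D0 e + (1 - (1 - 1 / (p : ℝ)) * q ^ e) ^ w) * U0 T q (D0 + e) := by
      have h5 : tau T q D0 e ≤ tau T q D0 e * U0 T q (D0 + e) := le_mul_of_one_le_right htau hU0
      have h6 : (0 : ℝ) ≤ Fintype.card ι := Nat.cast_nonneg _
      nlinarith [mul_le_mul_of_nonneg_left h5 h6]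
    have h7 : (Fintype.card ι : ℝ) * (tau T q D0 e + (1 - (1 - 1 / (p : ℝ)) * q ^ e) ^ w) * U0 T q (D0 + e) <
        1 * U0 T q (D0 + e) := mul_lt_mul_of_pos_right hN (by linarith)
    linarith
  obtain ⟨D, hDr, hlt⟩ := hdeg
  rw [Finset.mem_range] at hDr
  have hdim := SizeDegree.inter_dim (T.P D) (fun i => An T D (a i) (L i)) (fun i => inf_le_left) Finset.univ
  have hne : ¬ (T.P D ⊓ Finset.univ.inf (fun i => An T D (a i) (L i)) ≤ T.K) := by
    intro hle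
    have h2 : Module.finrank (ZMod p) ↥(T.P D ⊓ Finset.univ.inf (fun i => An T D (a i) (L i))) ≤
        Module.finrank (ZMod p) ↥(T.P D ⊓ T.K) := Submodule.finrank_mono (le_inf inf_le_left hle)
    have h3 : (Module.finrank (ZMod p) ↥(T.P D ⊓ Finset.univ.inf (fun i => An T D (a i) (L i))) : ℝ) ≤
        Module.finrank (ZMod p) ↥(T.P D ⊓ T.K) := by exact_mod_cast h2
    rw [hD] at hlt
    simp only [rr] at hlt
    linarith
  rw [SetLike.not_le_iff_exists] at hne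
  obtain ⟨f, hf, hfK⟩ := hne
  obtain ⟨hf1, hf2⟩ := Submodule.mem_inf.1 hf
  refine ⟨D, f, a, by omega, hf1, hfK, fun i => ⟨ha i, (haa i).1, (haa i).2, ?_⟩⟩
  have h3 : f ∈ An T D (a i) (L i) := by
    have h4 : Finset.univ.inf (fun i => An T D (a i) (L i)) ≤ An T D (a i) (L i) := Finset.inf_le (Finset.mem_univ i)
    exact h4 hf2
  exact (Submodule.mem_inf.1 h3).2

end H85SD
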