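import Pool.Agent.H85.SD.MainA
import Pool.Agent.H69.SD.Rand
import Pool.Agent.H62.RC.Unsat

/-!
helper85: the products form with natural numbers, random `k`-CNFs.
-/

set_option autoImplicit false
open scoped Classical

namespace SizeDegree

/-- the numbers for random CNFs: the degree `d = n / C2` is enough -/
theorem rand_num {C1 C2 e k C n s t : ℕ} (h1 : 0 < C1) (h2 : 0 < C2) (hC : C = 2 * C1 * (2 * C2) ^ (e + 1) * (k + 1))
    (hn : C ≤ n) (hst : C * (s + t) ≤ n) : n / C2 ≤ n ∧ C2 * (n / C2) ≤ n ∧ C1 * (k + s + t + 1) ≤ n / C2 ∧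
      n / C ≤ (n / C2) ^ (e + 1) / (C1 * n ^ e) := by
  have hp : 2 * C2 ≤ (2 * C2) ^ (e + 1) := by
    calc 2 * C2 = (2 * C2) ^ 1 := (pow_one _).symm
      _ ≤ (2 * C2) ^ (e + 1) := Nat.pow_le_pow_right (by omega) (by omega)
  have hpp : 1 ≤ (2 * C2) ^ (e + 1) := Nat.one_le_pow _ _ (by omega)
  have hC0 : 0 < C := by
    rw [hC]
    positivity
  have hCa : 2 * (C1 * C2) * (k + 1) ≤ C := by
    rw [hC]
    refine Nat.mul_le_mul_right _ ?_
    calc 2 * (C1 * C2) ≤ 2 * (C1 * (2 * C2)) := Nat.mul_le_mul_left _ (Nat.mul_le_mul_left _ (by omega))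
      _ = 2 * C1 * (2 * C2) := by ring
      _ ≤ _ := Nat.mul_le_mul_left _ hp
  have hCb : C1 * (2 * C2) ^ (e + 1) ≤ C := by
    rw [hC]
    calc C1 * (2 * C2) ^ (e + 1) = 1 * (C1 * (2 * C2) ^ (e + 1)) * 1 := by ring
      _ ≤ 2 * (C1 * (2 * C2) ^ (e + 1)) * (k + 1) := Nat.mul_le_mul (Nat.mul_le_mul_right _ (by norm_num)) (by omega)
      _ = 2 * C1 * (2 * C2) ^ (e + 1) * (k + 1) := by ring
  have hC2n : C2 ≤ n := by
    have : C2 ≤ 2 * (C1 * C2) * (k + 1) := by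
      calc C2 = 1 * (1 * C2) * 1 := by ring
        _ ≤ 2 * (C1 * C2) * (k + 1) := Nat.mul_le_mul (Nat.mul_le_mul (by norm_num) (Nat.mul_le_mul_right _ h1)) (by omega)
    omega
  refine ⟨Nat.div_le_self _ _, Nat.mul_div_le _ _, ?_, ?_⟩
  · rw [Nat.le_div_iff_mul_le h2]
    have e1 : 2 * (C1 * C2) * (s + t) ≤ C * (s + t) := by
      refine Nat.mul_le_mul_right _ (le_trans ?_ hCa)
      exact Nat.le_mul_of_pos_right _ (by omega)
    have e2 : C1 * (k + s + t + 1) * C2 = (C1 * C2) * (k + 1) + (C1 * C2) * (s + t) := by ring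
    have e3 : 2 * (C1 * C2) * (k + 1) = 2 * ((C1 * C2) * (k + 1)) := by ring
    have e4 : 2 * (C1 * C2) * (s + t) = 2 * ((C1 * C2) * (s + t)) := by ring
    omega
  · have hn0 : 0 < n := by omega
    rw [Nat.le_div_iff_mul_le (by positivity)]
    have hd1 : 1 ≤ n / C2 := (Nat.one_le_div_iff h2).mpr hC2n
    have hd2 : n ≤ 2 * C2 * (n / C2) := by
      have := Nat.lt_mul_div_succ n h2
      have e5 : C2 * (n / C2 + 1) = C2 * (n / C2) + C2 := by ring
      have e6 : C2 ≤ C2 * (n / C2) := Nat.le_mul_of_pos_right _ hd1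
      have e7 : 2 * C2 * (n / C2) = C2 * (n / C2) + C2 * (n / C2) := by ring
      omega
    have hd3 : n ^ (e + 1) ≤ (2 * C2) ^ (e + 1) * (n / C2) ^ (e + 1) := by
      rw [← mul_pow]
      exact Nat.pow_le_pow_left hd2 _
    have hnC : n / C * C ≤ n := Nat.div_mul_le_self _ _
    refine Nat.le_of_mul_le_mul_left (?_ : (2 * C2) ^ (e + 1) * _ ≤ (2 * C2) ^ (e + 1) * _) hpp
    calc (2 * C2) ^ (e + 1) * (n / C * (C1 * n ^ e)) = n / C * (C1 * (2 * C2) ^ (e + 1)) * n ^ e := by ring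
      _ ≤ n / C * C * n ^ e := Nat.mul_le_mul_right _ (Nat.mul_le_mul_left _ hCb)
      _ ≤ n * n ^ e := Nat.mul_le_mul_right _ hnC
      _ = n ^ (e + 1) := by ring
      _ ≤ _ := hd3

theorem toClause_card {n k : ℕ} (C : KClause n k) : C.toClause.card ≤ k := by
  unfold KClause.toClause
  refine Finset.card_image_le.trans ?_
  rw [Finset.card_univ, Fintype.card_fin]

/-- transfer to random CNFs: a property which follows from the absence of polynomial calculus refutations of degree `n / C2`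
holds for almost all `k`-CNFs -/
theorem rand_main (k Δ : ℕ) (hk : 3 ≤ k) : ∃ C2 : ℕ, 0 < C2 ∧ ∀ C : ℕ, C2 ≤ C → ∀ n m : ℕ, m ≤ Δ * n →
    ∀ P : (Fin m → KClause n k) → Prop,
      (∀ Φ, C ≤ n → (∀ p : ℕ, p.Prime → ∀ d : ℕ, C2 * d ≤ n → ¬ Derives (p := p) (fun j => (Φ j).toClause) d 1) → ¬ P Φ) →
      n * Nat.card {Φ : Fin m → KClause n k // P Φ} ≤ C * Nat.card (Fin m → KClause n k) := by
  obtain ⟨C2, hC2, h⟩ := H69SD.rand_derives k (Δ + 1) hk (by omega)
  refine ⟨C2, hC2, ?_⟩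
  intro C hC n m hm P hP
  have e1 : Nat.card (Fin m → KClause n k) = Fintype.card (KClause n k) ^ m := by
    rw [Nat.card_eq_fintype_card, Fintype.card_fun, Fintype.card_fin]
  rw [e1, Nat.card_eq_fintype_card, Fintype.card_subtype]
  rcases lt_or_ge n C with hn | hn
  · refine Nat.mul_le_mul hn.le ((Finset.card_le_univ _).trans ?_)
    rw [Fintype.card_fun, Fintype.card_fin]
  · refine le_trans (Nat.mul_le_mul_left _ (Finset.card_le_card ?_))
      ((h n m (hm.trans (Nat.mul_le_mul_right _ (by omega)))).trans (Nat.mul_le_mul_right _ hC))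
    intro Φ hΦ
    rw [Finset.mem_filter] at hΦ ⊢
    exact ⟨Finset.mem_univ _, fun hcon => hP Φ hn hcon hΦ.2⟩

/-- random `k`-CNFs, lines form -/
theorem rand_lines (p : ℕ) (hp : p.Prime) (e f k Δ : ℕ) (he : 1 ≤ e) (hk : 3 ≤ k) : ∃ C : ℕ, 0 < C ∧
    ∀ n m : ℕ, m ≤ Δ * n → n * Nat.card {Φ : Fin m → KClause n k // ∃ s t N, C * (s + t) ≤ n ∧ N < 2 ^ (n / C) ∧
      Refutes p e t f s (fun j => (Φ j).toClause) N} ≤ C * Nat.card (Fin m → KClause n k) := by
  have : Fact p.Prime := ⟨hp⟩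
  obtain ⟨C1, hC1, h1⟩ := lines_nat p e f he
  obtain ⟨C2, hC2, h2⟩ := rand_main k Δ hk
  obtain ⟨C, hC⟩ : ∃ C, C = 2 * C1 * (2 * C2) ^ (e + 1) * (k + 1) := ⟨_, rfl⟩
  have hC0 : C2 ≤ C := by
    rw [hC]
    calc C2 = 1 * C2 * 1 := by ring
      _ ≤ (2 * C1) * (2 * C2) ^ (e + 1) * (k + 1) := by
        refine Nat.mul_le_mul (Nat.mul_le_mul (by omega) ?_) (by omega)
        calc C2 ≤ (2 * C2) ^ 1 := by rw [pow_one]; omega
          _ ≤ (2 * C2) ^ (e + 1) := Nat.pow_le_pow_right (by omega) (by omega)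
  refine ⟨C, by omega, ?_⟩
  intro n m hm
  refine h2 C hC0 n m hm _ ?_
  rintro Φ hn hder ⟨s, t, N, hst, hN, href⟩
  obtain ⟨a1, a2, a3, a4⟩ := rand_num (s := s) (t := t) hC1 hC2 hC hn hst
  have h3 := h1 n (n / C2) k s t m N _ a1 a3 (fun j => toClause_card (Φ j)) (hder p hp _ a2) href
  exact absurd ((Nat.pow_le_pow_right (by norm_num) a4).trans h3) (not_le.mpr hN)

/-- random `k`-CNFs, resolution over parities -/
theorem rand_xor (k Δ : ℕ) (hk : 3 ≤ k) : ∃ C : ℕ, 0 < C ∧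
    ∀ n m : ℕ, m ≤ Δ * n → n * Nat.card {Φ : Fin m → KClause n k // ∃ N < 2 ^ (n / C),
      XorRefutes (fun j => (Φ j).toClause) N} ≤ C * Nat.card (Fin m → KClause n k) := by
  obtain ⟨C, hC, h⟩ := rand_lines 2 Nat.prime_two 1 2 k Δ le_rfl hk
  refine ⟨C * (k + 1), by positivity, ?_⟩
  intro n m hm
  rcases lt_or_ge n (C * (k + 1)) with hn | hn
  · refine Nat.mul_le_mul hn.le ?_
    rw [Nat.card_eq_fintype_card, Nat.card_eq_fintype_card]
    exact Fintype.card_subtype_le _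
  refine le_trans (Nat.mul_le_mul_left _ ?_) ((h n m hm).trans (Nat.mul_le_mul_right _ (Nat.le_mul_of_pos_right _ (by omega))))
  refine Nat.card_le_card_of_injective
    (fun Φ : {Φ : Fin m → KClause n k // ∃ N < 2 ^ (n / (C * (k + 1))), XorRefutes (fun j => (Φ j).toClause) N} =>
      (⟨Φ.1, ?_⟩ : {Φ : Fin m → KClause n k // ∃ s t N, C * (s + t) ≤ n ∧ N < 2 ^ (n / C) ∧
      Refutes 2 1 t 2 s (fun j => (Φ j).toClause) N})) ?_
  · obtain ⟨N, hN, href⟩ := Φ.2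
    refine ⟨max k 1, 0, N, ?_, lt_of_lt_of_le hN (Nat.pow_le_pow_right (by norm_num) ?_),
      xor_refutes _ (fun j => toClause_card (Φ.1 j)) href⟩
    · refine le_trans (Nat.mul_le_mul_left _ (by omega)) hn
    · exact Nat.div_le_div_left (Nat.le_mul_of_pos_right _ (by omega)) hC
  · intro Φ Ψ hΦ
    exact Subtype.ext (congrArg (fun z => z.1) hΦ)

/-- many clauses: almost all formulas are unsatisfiable -/
theorem unsat {n k m : ℕ} (hn : 16 ≤ n) (hm : n * 2 ^ k ≤ m) :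
    n * Nat.card {Φ : Fin m → KClause n k // ∃ x : Pt n, ∀ j, (Φ j).toClause.Holds x} ≤
      Nat.card (Fin m → KClause n k) := by
  have h := H62RC.unsat_count (n := n) (k := k) (m := m) hn hm
  have e1 : Nat.card (Fin m → KClause n k) = Fintype.card (KClause n k) ^ m := by
    rw [Nat.card_eq_fintype_card, Fintype.card_fun, Fintype.card_fin]
  rw [e1, Nat.card_eq_fintype_card, Fintype.card_subtype]
  refine le_trans (Nat.mul_le_mul_left _ (Finset.card_le_card ?_)) h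
  intro Φ hΦ
  rw [Finset.mem_filter] at hΦ ⊢
  refine ⟨Finset.mem_univ _, ?_⟩
  obtain ⟨_, x, hx⟩ := hΦ
  refine ⟨x, fun j => ?_⟩
  obtain ⟨l, hl, hlx⟩ := hx j
  unfold KClause.toClause at hl
  rw [Finset.mem_image] at hl
  obtain ⟨i, _, hi⟩ := hl
  exact ⟨l, ⟨i, hi⟩, hlx⟩

end SizeDegree
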