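import Pool.Agent.H85.SD.Fin

/-!
helper85: the size-degree theorem with natural numbers, resolution over parities.
-/

set_option autoImplicit false
open scoped Classical

namespace SizeDegree

theorem clean {C a b N : ℕ} (hC : 0 < C) (h : (2 : ℝ) ^ ((a : ℝ) / (C * (b : ℝ))) ≤ 4 * N) (hN : 1 ≤ N) :
    2 ^ (a / (3 * C * b)) ≤ N := by
  obtain ⟨r, hr⟩ : ∃ r, r = a / (3 * C * b) := ⟨_, rfl⟩
  rw [← hr]
  rcases Nat.eq_zero_or_pos r with h0 | h0
  · rw [h0, pow_zero]
    exact hN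
  have hb : 0 < b := by
    rcases Nat.eq_zero_or_pos b with hb | hb
    · rw [hb, mul_zero, Nat.div_zero] at hr
      omega
    · exact hb
  have h1 : r * (3 * C * b) ≤ a := by
    rw [hr]
    exact Nat.div_mul_le_self _ _
  have h2 : ((r + 2 : ℕ) : ℝ) ≤ (a : ℝ) / (C * (b : ℝ)) := by
    have hCb : (0 : ℝ) < C * (b : ℝ) := by
      have : (0 : ℝ) < C := by exact_mod_cast hC
      have : (0 : ℝ) < b := by exact_mod_cast hb
      positivity
    rw [le_div_iff₀ hCb]
    have h3 : (r + 2) * (C * b) ≤ a := by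
      calc (r + 2) * (C * b) ≤ (r * 3) * (C * b) := Nat.mul_le_mul_right _ (by omega)
        _ = r * (3 * C * b) := by ring
        _ ≤ a := h1
    exact_mod_cast h3
  have h4 : (2 : ℝ) ^ (r + 2) ≤ 4 * N := by
    rw [← Real.rpow_natCast]
    exact (Real.rpow_le_rpow_of_exponent_le (by norm_num) h2).trans h
  have h5 : 2 ^ (r + 2) ≤ 4 * N := by exact_mod_cast h4
  rw [pow_add] at h5
  omega

/-- the size-degree theorem, lines form, natural numbers -/
theorem lines_nat (p : ℕ) [Fact p.Prime] (e f : ℕ) (he : 1 ≤ e) : ∃ C : ℕ, 0 < C ∧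
    ∀ (n d k s t m N : ℕ) (Φ : Fin m → Clause n), d ≤ n → C * (k + s + t + 1) ≤ d → (∀ j, (Φ j).card ≤ k) →
      ¬ Derives (p := p) Φ d 1 → Refutes p e t f s Φ N → 2 ^ (d ^ (e + 1) / (C * n ^ e)) ≤ N := by
  obtain ⟨C, hC, h⟩ := lines_bound p e f he
  refine ⟨3 * C, by omega, ?_⟩
  intro n d k s t m N Φ hdn hCd hk h1 href
  refine clean hC ?_ href.choose_spec.1
  have := h n d k s t m N Φ hdn (le_trans (Nat.mul_le_mul_right _ (by omega)) hCd) hk h1 href
  push_cast
  exact this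

/-- resolution over parities -/
theorem xor_nat : ∃ C : ℕ, 0 < C ∧ ∀ (n d k m N : ℕ) (Φ : Fin m → Clause n), d ≤ n → C * (k + 1) ≤ d →
    (∀ j, (Φ j).card ≤ k) → ¬ Derives (p := 2) Φ d 1 → XorRefutes Φ N → 2 ^ (d ^ 2 / (C * n)) ≤ N := by
  obtain ⟨C, hC, h⟩ := lines_nat 2 1 2 le_rfl
  refine ⟨3 * C, by omega, ?_⟩
  intro n d k m N Φ hdn hCd hk h1 href
  have h2 : Refutes 2 1 0 2 (max k 1) Φ N := xor_refutes Φ hk href
  have h3 := h n d k (max k 1) 0 m N Φ hdn (by
    refine le_trans ?_ hCd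
    have h4 : k + max k 1 + 0 + 1 ≤ 3 * (k + 1) := by omega
    calc C * (k + max k 1 + 0 + 1) ≤ C * (3 * (k + 1)) := Nat.mul_le_mul_left _ h4
      _ = 3 * C * (k + 1) := by ring) hk h1 h2
  refine le_trans (Nat.pow_le_pow_right (by norm_num) ?_) h3
  rw [pow_one]
  refine Nat.div_le_div_left (Nat.mul_le_mul_right _ (by omega)) ?_ |>.trans (le_of_eq rfl)
  rcases Nat.eq_zero_or_pos n with hn | hn
  · exfalso
    have : 0 < 3 * C * (k + 1) := by positivity
    omega
  · positivity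

end SizeDegree
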